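import Pool.Agent.helper79.FR.Grp

/-!
# MP_f09395_gt, regular part: a function with positive derivative along `W` where `W v = 0`
-/

set_option linter.unusedSectionVars false

noncomputable section

namespace Pool.Agent.helper79.FR

open scoped ContDiff
open Pool.Agent.Helper93.Fin Pool.Agent.helper79.FP
open Filter Topology

variable {𝔸 : Type*} [NormedRing 𝔸] [NormedAlgebra ℝ 𝔸] [FiniteDimensional ℝ 𝔸]
variable {g h m : Submodule ℝ 𝔸} {Q : 𝔸 →ₗ[ℝ] 𝔸 →ₗ[ℝ] ℝ} {P : 𝔸 →L[ℝ] m} {φ ψ v : m → ℝ}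
variable {h0 : 𝔸} {B : m → 𝔸} {c : m → ℝ} {H : Subgroup 𝔸ˣ}

/-- the function `Σ k_j a_(j+1) a_(j+2) / |u|²` -/
def hb {m : Submodule ℝ 𝔸} (Q : 𝔸 →ₗ[ℝ] 𝔸 →ₗ[ℝ] ℝ) (P : 𝔸 →L[ℝ] m) (h0 : 𝔸) (B : m → 𝔸)
    (v : m → ℝ) (J : ℕ) (k : ℕ → ℝ) (u : m) : ℝ :=
  (∑ j ∈ Finset.range J, k j * (aW P h0 B v (j + 1) u * aW P h0 B v (j + 2) u)) * (BN m Q u u)⁻¹

theorem BN_ne (hN : NData g h m Q P) {u : m} (hu : u ≠ 0) : BN m Q u u ≠ 0 :=
  (BN_pos hN u hu).ne'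

theorem BNsq_smooth : ContDiffOn ℝ ∞ (fun u : m => BN m Q u u) {0}ᶜ :=
  ((BN m Q).contDiff.clm_apply contDiff_id).contDiffOn

theorem BNinv_smooth (hN : NData g h m Q P) : ContDiffOn ℝ ∞ (fun u : m => (BN m Q u u)⁻¹) {0}ᶜ :=
  BNsq_smooth.inv fun _ hu => BN_ne hN hu

theorem hb_smooth (hN : NData g h m Q P) (hC : Cas g h m Q P h0 B c)
    (hv : ContDiffOn ℝ ∞ v {0}ᶜ) (J : ℕ) (k : ℕ → ℝ) : ContDiffOn ℝ ∞ (hb Q P h0 B v J k) {0}ᶜ := by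
  unfold hb
  refine ContDiffOn.mul ?_ (BNinv_smooth hN)
  exact ContDiffOn.sum fun j _ => contDiffOn_const.mul
    ((aW_smooth hC hv _).mul (aW_smooth hC hv _))

theorem hb_hom (hC : Cas g h m Q P h0 B c) (hv : ContDiffOn ℝ ∞ v {0}ᶜ)
    (hh : ∀ (r : ℝ) (u : m), v (r • u) = r ^ 2 * v u) (J : ℕ) (k : ℕ → ℝ) (r : ℝ) (u : m) :
    hb Q P h0 B v J k (r • u) = r ^ 2 * hb Q P h0 B v J k u := by
  unfold hb
  have e1 : BN m Q (r • u) (r • u) = r ^ 2 * BN m Q u u := by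
    rw [BN_apply, BN_apply]
    simp only [Submodule.coe_smul, map_smul, LinearMap.smul_apply, smul_eq_mul]
    ring
  have e2 : ∀ j, k j * (aW P h0 B v (j + 1) (r • u) * aW P h0 B v (j + 2) (r • u)) =
      r ^ 4 * (k j * (aW P h0 B v (j + 1) u * aW P h0 B v (j + 2) u)) := fun j => by
    rw [aW_hom hC hv hh, aW_hom hC hv hh]; ring
  simp only [e1, e2]
  rw [← Finset.mul_sum, mul_inv]
  by_cases hr : r = 0
  · simp [hr]
  · field_simp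

theorem hb_inv (hN : NData g h m Q P) (hC : Cas g h m Q P h0 B c) (hG : GrpD H h m Q h0 B c)
    (hv : ContDiffOn ℝ ∞ v {0}ᶜ) (hH : InvH H v) (J : ℕ) (k : ℕ → ℝ) :
    InvH H (hb Q P h0 B v J k) := by
  intro l hl u u' huu
  unfold hb
  have e1 : BN m Q u' u' = BN m Q u u := by
    rw [BN_apply, BN_apply, huu, hG.Qm l hl u u.2]
  have e2 : ∀ j, aW P h0 B v j u' = aW P h0 B v j u := fun j =>
    aW_inv hN hC hG hv hH j l hl u u' huu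
  simp only [e1, e2]

theorem fd_sum {ι : Type*} (s : Finset ι) {f : ι → m → ℝ} (hf : ∀ i, ContDiffOn ℝ ∞ (f i) {0}ᶜ)
    {u : m} (hu : u ≠ 0) (a : m) :
    fderiv ℝ (fun z => ∑ i ∈ s, f i z) u a = ∑ i ∈ s, fderiv ℝ (f i) u a := by
  have h1 : HasFDerivAt (fun z => ∑ i ∈ s, f i z) (∑ i ∈ s, fderiv ℝ (f i) u) u :=
    HasFDerivAt.fun_sum fun i _ => (dAt (hf i) hu).hasFDerivAt
  rw [h1.fderiv]
  simp

theorem fd_BNinv (hN : NData g h m Q P) {u : m} (hu : u ≠ 0) {a : m} (ha : Q (u : 𝔸) a = 0) :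
    fderiv ℝ (fun u : m => (BN m Q u u)⁻¹) u a = 0 := by
  have h1 : HasFDerivAt (fun u : m => BN m Q u u)
      ((BN m Q u).comp (ContinuousLinearMap.id ℝ m) + (BN m Q).flip (id u)) u :=
    ((BN m Q).hasFDerivAt).clm_apply (hasFDerivAt_id u)
  have h3 : HasFDerivAt (fun u : m => (BN m Q u u)⁻¹) (-(BN m Q u u ^ 2)⁻¹ •
      ((BN m Q u).comp (ContinuousLinearMap.id ℝ m) + (BN m Q).flip (id u))) u :=
    HasDerivAt.comp_hasFDerivAt (f := fun u : m => BN m Q u u) (h₂ := fun x : ℝ => x⁻¹) u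
      (hasDerivAt_inv (BN_ne hN hu)) h1
  rw [h3.fderiv]
  have h4 : Q (a : 𝔸) u = 0 := by rw [hN.Qsymm]; exact ha
  simp [ha, h4]

theorem hb_W (hN : NData g h m Q P) (hC : Cas g h m Q P h0 B c)
    (hv : ContDiffOn ℝ ∞ v {0}ᶜ) (J : ℕ) (k : ℕ → ℝ) {u : m} (hu : u ≠ 0) :
    D1 (hb Q P h0 B v J k) u (Wt P h0 B u) =
      (∑ j ∈ Finset.range J, k j * (aW P h0 B v (j + 2) u ^ 2 +
        aW P h0 B v (j + 1) u * aW P h0 B v (j + 3) u)) * (BN m Q u u)⁻¹ := by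
  have s1 : ∀ j, ContDiffOn ℝ ∞ (fun u => k j * (aW P h0 B v (j + 1) u * aW P h0 B v (j + 2) u))
      {0}ᶜ := fun j => contDiffOn_const.mul ((aW_smooth hC hv _).mul (aW_smooth hC hv _))
  have s2 : ContDiffOn ℝ ∞ (fun u => ∑ j ∈ Finset.range J,
      k j * (aW P h0 B v (j + 1) u * aW P h0 B v (j + 2) u)) {0}ᶜ :=
    ContDiffOn.sum fun j _ => s1 j
  have s3 := BNinv_smooth hN
  have hW : Q (u : 𝔸) (Wt P h0 B u) = 0 := by
    rw [Wt_coe hN hC, skew h0, map_neg, ← hN.Qinv, hC.Bcomm u]; simp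
  have e1 : ∀ j, D1 (aW P h0 B v j) u (Wt P h0 B u) = aW P h0 B v (j + 1) u := fun j => rfl
  unfold hb
  rw [D1, fd_mul s2 s3 hu, fd_BNinv hN hu hW, fd_sum _ s1 hu, mul_zero, zero_add, mul_comm]
  congr 1
  refine Finset.sum_congr rfl fun j _ => ?_
  rw [fd_cmul _ ((aW_smooth hC hv _).mul (aW_smooth hC hv _)) hu,
    fd_mul (aW_smooth hC hv _) (aW_smooth hC hv _) hu]
  have e2 := e1 (j + 1)
  have e3 := e1 (j + 2)
  unfold D1 at e2 e3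
  rw [e2, e3]
  ring

theorem flag_Wt (hN : NData g h m Q P) (hC : Cas g h m Q P h0 B c) {u b : m} (hF : Flag Q u b) :
    Wt P h0 B u = (Q (B u) b) • P ⁅h0, (b : 𝔸)⁆ := by
  unfold Wt
  conv_lhs => rw [hC.flat u b hF]
  rw [← map_smul]
  congr 1
  simp only [Ring.lie_def, mul_smul_comm, smul_mul_assoc, smul_sub]

theorem flag_D1W (hN : NData g h m Q P) (hC : Cas g h m Q P h0 B c) {u b : m} (hF : Flag Q u b)
    (f : m → ℝ) : D1 f u (Wt P h0 B u) = (Q (B u) b) * al P h0 f u b := by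
  rw [flag_Wt hN hC hF]
  unfold al D1
  rw [map_smul, smul_eq_mul]

end Pool.Agent.helper79.FR
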