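import Pool.Agent.helper79.FR.Defs

/-!
# MP_f09395_gt, regular part: the third order form as a continuous function of the flag
-/

set_option linter.unusedSectionVars false

noncomputable section

namespace Pool.Agent.helper79.FR

open scoped ContDiff
open Pool.Agent.Helper93.Fin Pool.Agent.helper79.FP
open Filter Topology

variable {𝔸 : Type*} [NormedRing 𝔸] [NormedAlgebra ℝ 𝔸] [FiniteDimensional ℝ 𝔸]
variable {g h m : Submodule ℝ 𝔸} {Q : 𝔸 →ₗ[ℝ] 𝔸 →ₗ[ℝ] ℝ} {P : 𝔸 →L[ℝ] m} {φ ψ : m → ℝ}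

theorem rep_spec (hN : NData g h m Q P) (f : m →L[ℝ] ℝ) (w : m) : Q (rep Q f : 𝔸) w = f w :=
  Classical.epsilon_spec (p := fun x : m => ∀ w : m, Q (x : 𝔸) w = f w) (m_rep hN f) w

theorem rep_unique (hN : NData g h m Q P) {x x' : m} (h1 : ∀ w : m, Q (x : 𝔸) w = Q (x' : 𝔸) w) :
    x = x' := by
  have h2' : ∀ w : m, Q ((x - x' : m) : 𝔸) w = 0 := fun w => by
    rw [Submodule.coe_sub, map_sub, LinearMap.sub_apply, h1 w, sub_self]
  have h2 : Q ((x - x' : m) : 𝔸) ((x - x' : m) : 𝔸) = 0 := h2' _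
  have h3 := Q_zero hN (mg hN (x - x')) h2.le
  have h4 : x - x' = 0 := Subtype.ext h3
  exact sub_eq_zero.1 h4

theorem gx_spec (hN : NData g h m Q P) (u w : m) : Q (gx Q φ u : 𝔸) w = D1 φ u w :=
  rep_spec hN _ w

theorem gs_spec (hN : NData g h m Q P) (u b w : m) : Q (gs Q φ u b : 𝔸) w = D2 φ u b w :=
  rep_spec hN _ w

theorem gy_spec (hN : NData g h m Q P) (u b w : m) : Q (gy Q φ u b : 𝔸) w = D3 φ u b b w :=
  rep_spec hN _ w

theorem T3F_eq (hN : NData g h m Q P) {u b x s y : m} (hx : ∀ w : m, Q (x : 𝔸) w = D1 φ u w)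
    (hs : ∀ w : m, Q (s : 𝔸) w = D2 φ u b w) (hy : ∀ w : m, Q (y : 𝔸) w = D3 φ u b b w) :
    T3N Q P φ u b x s y = T3F Q P φ u b := by
  have h1 : x = gx Q φ u := rep_unique hN fun w => by rw [hx, gx_spec hN]
  have h2 : s = gs Q φ u b := rep_unique hN fun w => by rw [hs, gs_spec hN]
  have h3 : y = gy Q φ u b := rep_unique hN fun w => by rw [hy, gy_spec hN]
  rw [T3F, ← h1, ← h2, ← h3]

/-- sufficient condition for `T3Pos` in terms of `al` and `T3F` -/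
theorem T3Pos_of (hN : NData g h m Q P) {h0 : 𝔸} (hm : h0 ∈ h)
    (hT : ∀ u b : m, Flag Q u b → al P h0 φ u b = 0 → 0 < T3F Q P φ u b) : T3Pos h Q P φ := by
  intro u b x s y h1 h2 h3 h4 hx hs hy hY
  rw [T3F_eq hN hx hs hy]
  refine hT u b ⟨h1, h2, h3, h4⟩ ?_
  have h5 := hY h0 hm
  rw [← hN.Qinv, hN.Qsymm, ← Q_P hN x (lg hN (hN.red.h_le hm) (mg hN b)), hx] at h5
  exact h5

/-! ### germs -/

theorem ev_fderiv {E F : Type*} [NormedAddCommGroup E] [NormedSpace ℝ E] [NormedAddCommGroup F]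
    [NormedSpace ℝ F] {f f' : E → F} {u : E} (hf : f =ᶠ[𝓝 u] f') (a : E) :
    (fun z => fderiv ℝ f z a) =ᶠ[𝓝 u] fun z => fderiv ℝ f' z a :=
  (hf.fderiv (𝕜 := ℝ)).mono fun z hz => by simp only; rw [hz]

theorem ev_D1 {E : Type*} [NormedAddCommGroup E] [NormedSpace ℝ E] {f f' : E → ℝ} {u : E}
    (hf : f =ᶠ[𝓝 u] f') (a : E) : (fun z => D1 f z a) =ᶠ[𝓝 u] fun z => D1 f' z a :=
  ev_fderiv hf a

theorem ev_D2 {E : Type*} [NormedAddCommGroup E] [NormedSpace ℝ E] {f f' : E → ℝ} {u : E}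
    (hf : f =ᶠ[𝓝 u] f') (a b : E) : (fun z => D2 f z a b) =ᶠ[𝓝 u] fun z => D2 f' z a b := by
  filter_upwards [eventually_eventuallyEq_nhds.2 hf] with z hz
  exact (ev_fderiv (ev_D1 hz a) b).self_of_nhds

theorem ev_D3 {E : Type*} [NormedAddCommGroup E] [NormedSpace ℝ E] {f f' : E → ℝ} {u : E}
    (hf : f =ᶠ[𝓝 u] f') (a b c : E) : (fun z => D3 f z a b c) =ᶠ[𝓝 u] fun z => D3 f' z a b c := by
  filter_upwards [eventually_eventuallyEq_nhds.2 hf] with z hz
  exact (ev_fderiv (ev_D2 hz a b) c).self_of_nhds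

theorem ev_D4 {E : Type*} [NormedAddCommGroup E] [NormedSpace ℝ E] {f f' : E → ℝ} {u : E}
    (hf : f =ᶠ[𝓝 u] f') (a b c d : E) :
    (fun z => D4 f z a b c d) =ᶠ[𝓝 u] fun z => D4 f' z a b c d := by
  filter_upwards [eventually_eventuallyEq_nhds.2 hf] with z hz
  exact (ev_fderiv (ev_D3 hz a b c) d).self_of_nhds

theorem T3F_congr (hN : NData g h m Q P) {u b : m} (hf : φ =ᶠ[𝓝 u] ψ) :
    T3F Q P φ u b = T3F Q P ψ u b := by
  have hx : ∀ w : m, Q (gx Q φ u : 𝔸) w = D1 ψ u w := fun w => by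
    rw [gx_spec hN]; exact (ev_D1 hf w).self_of_nhds
  have hs : ∀ w : m, Q (gs Q φ u b : 𝔸) w = D2 ψ u b w := fun w => by
    rw [gs_spec hN]; exact (ev_D2 hf b w).self_of_nhds
  have hy : ∀ w : m, Q (gy Q φ u b : 𝔸) w = D3 ψ u b b w := fun w => by
    rw [gy_spec hN]; exact (ev_D3 hf b b w).self_of_nhds
  rw [← T3F_eq hN hx hs hy, T3F]
  unfold T3N
  simp only [(ev_D4 hf _ _ _ _).self_of_nhds, (ev_D3 hf _ _ _).self_of_nhds,
    (ev_D2 hf _ _).self_of_nhds]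

theorem al_congr {h0 : 𝔸} {u b : m} (hf : φ =ᶠ[𝓝 u] ψ) : al P h0 φ u b = al P h0 ψ u b :=
  (ev_D1 hf _).self_of_nhds

theorem al'_congr {h0 : 𝔸} {u b : m} (hf : φ =ᶠ[𝓝 u] ψ) : al' P h0 φ u b = al' P h0 ψ u b :=
  (ev_D2 hf _ _).self_of_nhds

/-! ### continuity -/

theorem solve0 (hN : NData g h m Q P) {ι : Type*} {l : Filter ι}
    {x : ι → m} {x₀ : m} (hx : ∀ w : m, Tendsto (fun n => Q (x n : 𝔸) w) l (𝓝 (Q (x₀ : 𝔸) w))) :
    Tendsto x l (𝓝 x₀) := by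
  refine Lim5.solve' (B := fun _ (a w : m) => Q (a : 𝔸) w)
    (B₀ := fun (a w : m) => Q (a : 𝔸) w) ?_ ?_ ?_ ?_ ?_ ?_ ?_ ?_ ?_ (fun w hw => Qm_pos hN hw) hx
  · intro n a a' w
    simp only [Submodule.coe_add, map_add, LinearMap.add_apply]
  · intro n c a w
    simp only [Submodule.coe_smul, map_smul, LinearMap.smul_apply, smul_eq_mul]
  · intro n a w w'
    simp only [Submodule.coe_add, map_add]
  · intro n c a w
    simp only [Submodule.coe_smul, map_smul, smul_eq_mul]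
  · intro a a' w
    simp only [Submodule.coe_add, map_add, LinearMap.add_apply]
  · intro c a w
    simp only [Submodule.coe_smul, map_smul, LinearMap.smul_apply, smul_eq_mul]
  · intro a w w'
    simp only [Submodule.coe_add, map_add]
  · intro c a w
    simp only [Submodule.coe_smul, map_smul, smul_eq_mul]
  · intro a w
    exact tendsto_const_nhds

theorem T3F_tendsto (hN : NData g h m Q P) (hf : ContDiffOn ℝ ∞ φ {0}ᶜ) {ι : Type*} {l : Filter ι}
    {u b : ι → m} {u₀ b₀ : m} (hu₀ : u₀ ≠ 0) (hu : Tendsto u l (𝓝 u₀)) (hb : Tendsto b l (𝓝 b₀)) :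
    Tendsto (fun n => T3F Q P φ (u n) (b n)) l (𝓝 (T3F Q P φ u₀ b₀)) := by
  have cst : ∀ w : m, Tendsto (fun _ : ι => w) l (𝓝 w) := fun w => tendsto_const_nhds
  have lx : Tendsto (fun n => gx Q φ (u n)) l (𝓝 (gx Q φ u₀)) := by
    refine solve0 hN fun w => ?_
    simp only [gx_spec hN]
    exact D1_tendsto hf hu₀ hu (cst w)
  have ls : Tendsto (fun n => gs Q φ (u n) (b n)) l (𝓝 (gs Q φ u₀ b₀)) := by
    refine solve0 hN fun w => ?_
    simp only [gs_spec hN]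
    exact D2_tendsto hf hu₀ hu hb (cst w)
  have ly : Tendsto (fun n => gy Q φ (u n) (b n)) l (𝓝 (gy Q φ u₀ b₀)) := by
    refine solve0 hN fun w => ?_
    simp only [gy_spec hN]
    exact D3_tendsto hf hu₀ hu hb hb (cst w)
  have e1 := P_tendsto (P := P) (Lim5.br_tendsto (val_tendsto hu) (val_tendsto lx))
  have p1 := P_tendsto (P := P) (Lim5.br_tendsto (val_tendsto hb) (val_tendsto lx))
  have q1 := P_tendsto (P := P) (Lim5.br_tendsto (val_tendsto hu) (val_tendsto ls))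
  have c2 : Tendsto (fun _ : ι => (2 : ℝ)) l (𝓝 2) := tendsto_const_nhds
  have r1 := P_tendsto (P := P) ((c2.smul (Lim5.br_tendsto (val_tendsto hb)
    (val_tendsto ls))).add (Lim5.br_tendsto (val_tendsto hu) (val_tendsto ly)))
  unfold T3F T3N
  refine (((((((tendsto_const_nhds.mul (D4_tendsto hf hu₀ hu hb hb e1 e1)).sub
    (D3_tendsto hf hu₀ hu hb e1 ((c2.smul p1).sub q1))).add
    (tendsto_const_nhds.mul (D2_tendsto hf hu₀ hu e1 r1))).sub
    (D2_tendsto hf hu₀ hu p1 p1)).add (D2_tendsto hf hu₀ hu p1 q1)).sub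
    (D2_tendsto hf hu₀ hu q1 q1)).sub
    (Lim5.Q_tendsto Q (val_tendsto (p1.sub q1))
      (Lim5.br_tendsto (val_tendsto lx) (val_tendsto ls)))).sub
    (tendsto_const_nhds.mul (Lim5.Q_tendsto Q
      (Lim5.br_tendsto (val_tendsto lx) (val_tendsto ly)) (val_tendsto e1)))

theorem contOn_of_tendsto {F : m × m → ℝ} {S : Set (m × m)} (hS : ∀ p ∈ S, p.1 ≠ 0)
    (hF : ∀ p : m × m, p.1 ≠ 0 → Tendsto F (𝓝 p) (𝓝 (F p))) : ContinuousOn F S :=
  fun p hp => (hF p (hS p hp)).mono_left nhdsWithin_le_nhds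

theorem T3F_cont (hN : NData g h m Q P) (hf : ContDiffOn ℝ ∞ φ {0}ᶜ) {S : Set (m × m)}
    (hS : ∀ p ∈ S, p.1 ≠ 0) : ContinuousOn (fun p : m × m => T3F Q P φ p.1 p.2) S :=
  contOn_of_tendsto hS fun p hp => T3F_tendsto hN hf hp (continuous_fst.tendsto p)
    (continuous_snd.tendsto p)

theorem h0b_tendsto {h0 : 𝔸} {ι : Type*} {l : Filter ι} {b : ι → m} {b₀ : m}
    (hb : Tendsto b l (𝓝 b₀)) :
    Tendsto (fun n => P ⁅h0, (b n : 𝔸)⁆) l (𝓝 (P ⁅h0, (b₀ : 𝔸)⁆)) :=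
  P_tendsto (P := P) (Lim5.br_tendsto tendsto_const_nhds (val_tendsto hb))

theorem al_cont {h0 : 𝔸} (hf : ContDiffOn ℝ ∞ φ {0}ᶜ) {S : Set (m × m)}
    (hS : ∀ p ∈ S, p.1 ≠ 0) : ContinuousOn (fun p : m × m => al P h0 φ p.1 p.2) S :=
  contOn_of_tendsto hS fun p hp => D1_tendsto hf hp (continuous_fst.tendsto p)
    (h0b_tendsto (continuous_snd.tendsto p))

theorem al'_cont {h0 : 𝔸} (hf : ContDiffOn ℝ ∞ φ {0}ᶜ) {S : Set (m × m)}
    (hS : ∀ p ∈ S, p.1 ≠ 0) : ContinuousOn (fun p : m × m => al' P h0 φ p.1 p.2) S :=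
  contOn_of_tendsto hS fun p hp => D2_tendsto hf hp (continuous_fst.tendsto p)
    (continuous_snd.tendsto p) (h0b_tendsto (continuous_snd.tendsto p))

/-- the set of unit flat flags -/
def FlagSet {m : Submodule ℝ 𝔸} (Q : 𝔸 →ₗ[ℝ] 𝔸 →ₗ[ℝ] ℝ) : Set (m × m) :=
  {p | Flag Q p.1 p.2}

theorem Flag.ne (hN : NData g h m Q P) {u b : m} (hF : Flag Q u b) : u ≠ 0 := by
  intro h0
  have := hF.1
  rw [h0] at this
  simp at this

theorem flagSet_compact (hN : NData g h m Q P) : IsCompact (FlagSet Q : Set (m × m)) := by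
  obtain ⟨c, hc, hcoer⟩ := exists_coercive (BN m Q) (BN_pos hN)
  have hbd : ∀ v : m, Q (v : 𝔸) v = 1 → ‖v‖ ≤ 1 / c + 1 := by
    intro v hv
    have h1 := hcoer v
    rw [BN_apply, hv] at h1
    have h2 : ‖v‖ ^ 2 ≤ 1 / c := by rw [le_div_iff₀ hc]; linarith
    nlinarith [sq_nonneg (‖v‖ - 1), norm_nonneg v]
  have hpropm : ProperSpace m := FiniteDimensional.proper ℝ m
  have hcomp : IsCompact (Metric.closedBall (0 : m) (1 / c + 1) ×ˢ
      Metric.closedBall (0 : m) (1 / c + 1)) :=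
    (isCompact_closedBall _ _).prod (isCompact_closedBall _ _)
  have c1 : Continuous fun p : m × m => (p.1 : 𝔸) := continuous_subtype_val.comp continuous_fst
  have c2 : Continuous fun p : m × m => (p.2 : 𝔸) := continuous_subtype_val.comp continuous_snd
  have cQ : ∀ f f' : m × m → 𝔸, Continuous f → Continuous f' →
      Continuous fun p => Q (f p) (f' p) := by
    intro f f' h1 h2
    have := (Qc Q).continuous.comp h1
    exact this.clm_apply h2
  refine hcomp.of_isClosed_subset ?_ ?_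
  · refine ((isClosed_eq (cQ _ _ c1 c1) continuous_const).inter
      ((isClosed_eq (cQ _ _ c2 c2) continuous_const).inter
      ((isClosed_eq (cQ _ _ c1 c2) continuous_const).inter
      (isClosed_eq (f := fun p : m × m => ⁅(p.1 : 𝔸), (p.2 : 𝔸)⁆) (g := fun _ => 0) ?_
        continuous_const))))
    simp only [Ring.lie_def]
    exact (c1.mul c2).sub (c2.mul c1)
  · intro p hp
    refine ⟨?_, ?_⟩
    · simpa only [mem_closedBall_zero_iff] using hbd _ hp.1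
    · simpa only [mem_closedBall_zero_iff] using hbd _ hp.2.1

end Pool.Agent.helper79.FR
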