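import Pool.Agent.helper79.FR.StepA

/-!
# MP_f09395_gt, regular part, step B: the Casimir rotation
-/

set_option linter.unusedSectionVars false

noncomputable section

namespace Pool.Agent.helper79.FR

open scoped ContDiff
open Pool.Agent.Helper93.Fin Pool.Agent.helper79.FP
open Filter Topology

variable {𝔸 : Type*} [NormedRing 𝔸] [NormedAlgebra ℝ 𝔸] [FiniteDimensional ℝ 𝔸]
variable {g h m : Submodule ℝ 𝔸} {Q : 𝔸 →ₗ[ℝ] 𝔸 →ₗ[ℝ] ℝ} {P : 𝔸 →L[ℝ] m} {φ ψ v z : m → ℝ}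
variable {h0 : 𝔸} {B : m → 𝔸} {c : m → ℝ} {H : Subgroup 𝔸ˣ}

/-- **step B** -/
theorem stepB (hN : NData g h m Q P) (hC : Cas g h m Q P h0 B c) (hG : GrpD H h m Q h0 B c)
    (hv : PhiN h m P v) (hvH : InvH H v)
    (W1 : ∀ u b : m, Flag Q u b → Q (B u) b = 0 → al P h0 v u b = 0 → 0 < T3F Q P v u b)
    (W2 : ∀ u b : m, Flag Q u b → Q (B u) b = 0 → al P h0 v u b = 0 → 0 < al' P h0 v u b)
    (W3 : ∀ u b : m, Flag Q u b → Q (B u) b ≠ 0 → ∃ j, 1 ≤ j ∧ aW P h0 B v j u ≠ 0) :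
    ∃ φ : m → ℝ, PhiN h m P φ ∧ InvH H φ ∧ ∀ u b : m, Flag Q u b → al P h0 φ u b = 0 →
      0 < T3F Q P φ u b ∨ Q (B u) b * al' P h0 φ u b ≠ 0 := by
  have hS : ∀ p ∈ (FlagSet Q : Set (m × m)), p.1 ≠ 0 := fun p hp => flag_ne hN hp
  -- (i) the size of the neighbourhoods of the walls
  obtain ⟨ε, hε0, hε1, hε⟩ : ∃ ε : ℝ, 0 < ε ∧ ε < 1 ∧ ∀ u b : m, Flag Q u b →
      al P h0 v u b = 0 → 1 - ε < c u ^ 2 → 0 < al' P h0 v u b := by
    have k1 := compact_sub hN (al_cont (P := P) (h0 := h0) hv.smooth hS)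
      (isClosed_singleton (x := (0 : ℝ)))
    have hS1 : ∀ p ∈ (FlagSet Q : Set (m × m)) ∩ (fun p : m × m => al P h0 v p.1 p.2) ⁻¹' {0},
      p.1 ≠ 0 := fun p hp => hS p hp.1
    have k2 : IsCompact (((FlagSet Q : Set (m × m)) ∩
        (fun p : m × m => al P h0 v p.1 p.2) ⁻¹' {0}) ∩
        (fun p : m × m => al' P h0 v p.1 p.2) ⁻¹' (Set.Iic 0)) :=
      k1.of_isClosed_subset ((al'_cont hv.smooth hS1).preimage_isClosed_of_isClosed
        k1.isClosed isClosed_Iic) Set.inter_subset_left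
    have hS2 : ∀ p ∈ (((FlagSet Q : Set (m × m)) ∩
        (fun p : m × m => al P h0 v p.1 p.2) ⁻¹' {0}) ∩
        (fun p : m × m => al' P h0 v p.1 p.2) ⁻¹' (Set.Iic 0)), p.1 ≠ 0 :=
      fun p hp => hS p hp.1.1
    obtain ⟨C, hC0, c0, hc0, hc⟩ := pos_add_sq' k2 (f := fun p : m × m => 1 - c p.1 ^ 2)
      (g := fun _ => 0) (continuousOn_const.sub ((cont_fst hC.csm hS2).pow 2))
      continuousOn_const (by
        rintro p ⟨⟨hp1, hp2⟩, hp3⟩ -
        have h1 := hC.cw p.1 p.2 hp1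
        have h2 : Q (B p.1) p.2 ≠ 0 := fun h0' =>
          absurd (W2 p.1 p.2 hp1 h0' hp2) (not_lt.2 hp3)
        have h3 : 0 < Q (B p.1) p.2 ^ 2 := by positivity
        linarith)
    refine ⟨min c0 (1 / 2), by positivity, by
      have := min_le_right c0 (1 / 2); linarith, fun u b hF ha hcu => ?_⟩
    by_contra hle
    have h1 := hc (u, b) ⟨⟨hF, ha⟩, not_lt.1 hle⟩
    have h2 := min_le_left c0 (1 / 2)
    simp only at h1
    linarith
  obtain ⟨b0, hb0⟩ : ∃ b0 : ℝ, b0 = 1 - ε / 4 := ⟨_, rfl⟩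
  obtain ⟨d, hd⟩ : ∃ d : ℝ, d = ε / 8 := ⟨_, rfl⟩
  have hb1 : 1 - ε < (b0 - d) ^ 2 := by rw [hb0, hd]; nlinarith
  have hb2 : 0 < b0 - d := by rw [hb0, hd]; linarith
  have hd0 : 0 < d := by rw [hd]; linarith
  obtain ⟨w0, hw0⟩ : ∃ w0 : ℝ, w0 = Real.sqrt (1 - b0 ^ 2) := ⟨_, rfl⟩
  have hb3 : 0 < 1 - b0 ^ 2 := by rw [hb0]; nlinarith
  have hw0' : 0 < w0 := by rw [hw0]; exact Real.sqrt_pos.2 hb3
  have hw0s : w0 ^ 2 = 1 - b0 ^ 2 := by rw [hw0, Real.sq_sqrt hb3.le]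
  -- (ii) the compact regular part
  obtain ⟨K, hKd⟩ : ∃ K : Set (m × m), K = ((FlagSet Q : Set (m × m)) ∩
      (fun p : m × m => c p.1) ⁻¹' (Set.Icc (-b0) b0)) ∩
      (fun p : m × m => Q (B p.1) p.2) ⁻¹' (Set.Ici 0) := ⟨_, rfl⟩
  have hKm : ∀ u b : m, (u, b) ∈ K ↔ Flag Q u b ∧ (-b0 ≤ c u ∧ c u ≤ b0) ∧ 0 ≤ Q (B u) b := by
    intro u b
    rw [hKd]
    constructor
    · rintro ⟨⟨h1, h2⟩, h3⟩; exact ⟨h1, h2, h3⟩
    · rintro ⟨h1, h2, h3⟩; exact ⟨⟨h1, h2⟩, h3⟩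
  have hK : IsCompact K := by
    have k1 := compact_sub hN (cont_fst hC.csm hS) (isClosed_Icc (a := -b0) (b := b0))
    have hS1 : ∀ p ∈ (FlagSet Q : Set (m × m)) ∩ (fun p : m × m => c p.1) ⁻¹'
      (Set.Icc (-b0) b0), p.1 ≠ 0 := fun p hp => hS p hp.1
    rw [hKd]
    exact k1.of_isClosed_subset ((w_cont hC hS1).preimage_isClosed_of_isClosed
        k1.isClosed isClosed_Ici) Set.inter_subset_left
  have hSK : ∀ p ∈ K, p.1 ≠ 0 := fun p hp => hS p ((hKm p.1 p.2).1 hp).1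
  have hwK : ∀ u b : m, (u, b) ∈ K → w0 ≤ Q (B u) b := by
    intro u b hp
    obtain ⟨h1, ⟨h2, h3⟩, h4⟩ := (hKm u b).1 hp
    have h5 := hC.cw u b h1
    have h6 : w0 ^ 2 ≤ Q (B u) b ^ 2 := by rw [hw0s]; nlinarith
    exact (pow_le_pow_iff_left₀ hw0'.le h4 two_ne_zero).1 h6
  -- (iii) the second function
  obtain ⟨J, k, hJk⟩ := hb_exists hK (a := fun j p => aW P h0 B v j p.1)
    (fun j => cont_fst (aW_smooth hC hv.smooth j) hSK) (by
      intro p hp
      exact W3 p.1 p.2 ((hKm p.1 p.2).1 hp).1 (lt_of_lt_of_le hw0' (hwK p.1 p.2 hp)).ne')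
  obtain ⟨z, hz⟩ : ∃ z : m → ℝ, z = hb Q P h0 B v J k := ⟨_, rfl⟩
  have hzs : ContDiffOn ℝ ∞ z {0}ᶜ := by rw [hz]; exact hb_smooth hN hC hv.smooth J k
  have hzh : ∀ (r : ℝ) (u : m), z (r • u) = r ^ 2 * z u := by
    rw [hz]; exact hb_hom hC hv.smooth hv.hom J k
  have hzH : InvH H z := by rw [hz]; exact hb_inv hN hC hG hv.smooth hvH J k
  have hz1 : ∀ p ∈ K, al P h0 v p.1 p.2 = 0 → 0 < al P h0 z p.1 p.2 := by
    rintro ⟨u, b⟩ hp ha
    simp only at ha ⊢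
    have hF := ((hKm u b).1 hp).1
    have hu := hF.ne hN
    have h1 := flag_D1W hN hC hF v
    rw [ha, mul_zero] at h1
    have h2 := hJk (u, b) hp h1
    have h3 := flag_D1W hN hC hF z
    rw [hz, hb_W hN hC hv.smooth J k hu, BN_apply, hF.1, inv_one, mul_one, ← hz] at h3
    have h4 : 0 < Q (B u) b * al P h0 z u b := by rw [← h3]; exact h2
    exact (mul_pos_iff_of_pos_left (lt_of_lt_of_le hw0' (hwK u b hp))).1 h4
  -- (iv) the constants of the rotation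
  obtain ⟨A, hAd⟩ : ∃ A : Set (m × m), A = (K ∩ (fun p : m × m => c p.1) ⁻¹' (Set.Iic (-b0 + d))) ∪
      (K ∩ (fun p : m × m => c p.1) ⁻¹' (Set.Ici (b0 - d))) := ⟨_, rfl⟩
  have hAK : A ⊆ K := by
    rw [hAd]
    rintro p (hp | hp) <;> exact hp.1
  have hA : IsCompact A := by
    rw [hAd]
    exact (hK.of_isClosed_subset ((cont_fst hC.csm hSK).preimage_isClosed_of_isClosed
      hK.isClosed isClosed_Iic) Set.inter_subset_left).union
      (hK.of_isClosed_subset ((cont_fst hC.csm hSK).preimage_isClosed_of_isClosed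
      hK.isClosed isClosed_Ici) Set.inter_subset_left)
  obtain ⟨κ, hκ, ε1, hε1', hrot⟩ := rot_exists hK hA hAK (p := fun p => al P h0 v p.1 p.2)
    (q := fun p => al P h0 z p.1 p.2) (p' := fun p => al' P h0 v p.1 p.2)
    (q' := fun p => al' P h0 z p.1 p.2) (al_cont hv.smooth hSK) (al_cont hzs hSK)
    (al'_cont hv.smooth hSK) (al'_cont hzs hSK) hz1 (by
      rintro ⟨u, b⟩ hp ha
      have hpK := hAK hp
      obtain ⟨hF, ⟨h2, h3⟩, h4⟩ := (hKm u b).1 hpK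
      refine hε u b hF ha (lt_of_lt_of_le hb1 ?_)
      rw [hAd] at hp
      rcases hp with ⟨-, hp⟩ | ⟨-, hp⟩
      · have hp' : c u ≤ -b0 + d := hp
        nlinarith
      · have hp' : b0 - d ≤ c u := hp
        nlinarith)
  -- (v) the angle function
  obtain ⟨l, hl, hl1, hl2, ⟨n, hl3⟩, hl4⟩ := lam_exists (a := -b0) (b := b0) (δ := d)
    (κ := κ / (4 * w0)) (ε := ε1) (by linarith) hd0 hε1'
  -- (vi) the function
  have hφs := rot_smooth hC hl hv.smooth hzs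
  have hφH : InvH H (rot l c v z) := rot_inv hG hvH hzH
  refine ⟨rot l c v z, ⟨hφs, rot_hom hC hv.hom hzh, inv_of_InvH hN hG hφs hφH⟩, hφH, ?_⟩
  -- equality with `v` near the walls
  have hnear : ∀ u : m, u ≠ 0 → (c u < -b0 ∨ b0 < c u) → rot l c v z =ᶠ[𝓝 u] v := by
    intro u hu hcu
    have hcc : ContinuousAt c u := (dAt hC.csm hu).continuousAt
    rcases hcu with h1 | h1
    · filter_upwards [hcc.eventually (gt_mem_nhds h1)] with x hx
      have h2 := hl3 (c x) (le_of_lt hx)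
      unfold rot
      rw [h2]
      have h3 : (2 * Real.pi * (n : ℝ)) = (n : ℝ) * (2 * Real.pi) := by ring
      have h4 : Real.sin ((n : ℝ) * (2 * Real.pi)) = 0 := by
        have := Real.sin_nat_mul_pi (n * 2)
        push_cast at this
        rw [mul_assoc] at this
        exact this
      rw [h3, Real.cos_nat_mul_two_pi, h4]
      ring
    · filter_upwards [hcc.eventually (lt_mem_nhds h1)] with x hx
      have h2 := hl2 (c x) (le_of_lt hx)
      unfold rot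
      rw [h2, Real.cos_zero, Real.sin_zero]
      ring
  have hb01 : b0 < 1 := by rw [hb0]; linarith
  -- flags with `w > 0`
  have hpos : ∀ u b : m, Flag Q u b → 0 < Q (B u) b → al P h0 (rot l c v z) u b = 0 →
      al' P h0 (rot l c v z) u b ≠ 0 := by
    intro u b hF hw ha
    have hu := hF.ne hN
    by_cases hcu : c u < -b0 ∨ b0 < c u
    · have h1 := hnear u hu hcu
      rw [al_congr h1] at ha
      rw [al'_congr h1]
      refine (hε u b hF ha (lt_of_lt_of_le hb1 ?_)).ne'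
      rcases hcu with h2 | h2 <;> nlinarith
    · rw [not_or, not_lt, not_lt] at hcu
      have hp : (u, b) ∈ K := (hKm u b).2 ⟨hF, hcu, hw.le⟩
      have hw1 := hwK u b hp
      rw [rot_al hN hC hl hv.smooth hzs hF] at ha
      rw [rot_al' hN hC hl hv.smooth hzs hF]
      have hΛ : 0 ≤ -4 * Q (B u) b * deriv l (c u) := by
        have := hl1 (c u)
        nlinarith
      refine hrot (u, b) hp (l (c u)) (-4 * Q (B u) b * deriv l (c u)) hΛ ?_ ha
      rcases hl4 (c u) hcu.1 hcu.2 with h1 | ⟨h1, h2, h3⟩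
      · left
        rw [div_le_iff₀ (by positivity)] at h1
        have h2 := hl1 (c u)
        nlinarith
      · right
        refine ⟨?_, h2, h3⟩
        rw [hAd]
        rcases h1 with h1 | h1
        · left; exact ⟨hp, h1⟩
        · right; exact ⟨hp, h1⟩
  intro u b hF ha
  have hu := hF.ne hN
  rcases lt_trichotomy (Q (B u) b) 0 with hw | hw | hw
  · right
    have h1 : 0 < Q (B u) ((-b : m) : 𝔸) := by
      rw [Submodule.coe_neg, map_neg]; linarith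
    have h2 := hpos u (-b) hF.neg h1 (by rw [al_neg, ha, neg_zero])
    rw [al'_neg hφs hu] at h2
    exact mul_ne_zero hw.ne h2
  · left
    have h1 := hC.cw u b hF
    rw [hw] at h1
    have h2 : c u < -b0 ∨ b0 < c u := by
      by_contra hcon
      rw [not_or, not_lt, not_lt] at hcon
      nlinarith
    have h3 := hnear u hu h2
    rw [al_congr h3] at ha
    rw [T3F_congr hN h3]
    exact W1 u b hF hw ha
  · right
    exact mul_ne_zero hw.ne' (hpos u b hF hw ha)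

/-- **the regular part**: the wall properties imply the existence of a function with positive
third order form -/
theorem regular_part (hN : NData g h m Q P) (hC : Cas g h m Q P h0 B c)
    (hG : GrpD H h m Q h0 B c) (hv : PhiN h m P v) (hvH : InvH H v)
    (W1 : ∀ u b : m, Flag Q u b → Q (B u) b = 0 → al P h0 v u b = 0 → 0 < T3F Q P v u b)
    (W2 : ∀ u b : m, Flag Q u b → Q (B u) b = 0 → al P h0 v u b = 0 → 0 < al' P h0 v u b)
    (W3 : ∀ u b : m, Flag Q u b → Q (B u) b ≠ 0 → ∃ j, 1 ≤ j ∧ aW P h0 B v j u ≠ 0) :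
    ∃ φ : m → ℝ, PhiN h m P φ ∧ InvH H φ ∧ T3Pos h Q P φ := by
  obtain ⟨φ, h1, h2, h3⟩ := stepB hN hC hG hv hvH W1 W2 W3
  obtain ⟨κ, hκ⟩ := stepA hN hC h1 h3
  obtain ⟨h4, h5⟩ := sq_PhiN hN hC hG h1 h2 κ
  exact ⟨_, h4, h5, hκ⟩

end Pool.Agent.helper79.FR
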