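import Pool.Agent.helper79.FR.I3

/-!
# MP_f09395_gt, regular part: invariance under the isotropy group
-/

set_option linter.unusedSectionVars false

noncomputable section

namespace Pool.Agent.helper79.FR

open scoped ContDiff
open Pool.Agent.Helper93.Fin Pool.Agent.helper79.FP
open Filter Topology

variable {𝔸 : Type*} [NormedRing 𝔸] [NormedAlgebra ℝ 𝔸]

/-- compatibility of the rank two data with the isotropy group -/
structure GrpD (H : Subgroup 𝔸ˣ) (h m : Submodule ℝ 𝔸) (Q : 𝔸 →ₗ[ℝ] 𝔸 →ₗ[ℝ] ℝ) (h0 : 𝔸)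
    (B : m → 𝔸) (c : m → ℝ) : Prop where
  lie : ∀ X ∈ h, X ∈ lieAlg H
  adm : ∀ k ∈ H, ∀ Z ∈ m, Adj k Z ∈ m
  adh0 : ∀ k ∈ H, Adj k h0 = h0
  Q0 : ∀ k ∈ H, ∀ X, Q h0 (Adj k X) = Q h0 X
  Qm : ∀ k ∈ H, ∀ Z ∈ m, Q (Adj k Z) (Adj k Z) = Q Z Z
  B : ∀ k ∈ H, ∀ u v : m, (v : 𝔸) = Adj k u → B v = Adj k (B u)
  c : ∀ k ∈ H, ∀ u v : m, (v : 𝔸) = Adj k u → c v = c u

variable [FiniteDimensional ℝ 𝔸]
variable {g h m : Submodule ℝ 𝔸} {Q : 𝔸 →ₗ[ℝ] 𝔸 →ₗ[ℝ] ℝ} {P : 𝔸 →L[ℝ] m} {φ ψ v : m → ℝ}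
variable {h0 : 𝔸} {B : m → 𝔸} {c : m → ℝ} {H : Subgroup 𝔸ˣ}

/-- `Ad(k)` as a continuous linear map of `𝔪` -/
def adM (P : 𝔸 →L[ℝ] m) (k : 𝔸ˣ) : m →L[ℝ] m :=
  P.comp (((ContinuousLinearMap.mul ℝ 𝔸).flip ((k⁻¹ : 𝔸ˣ) : 𝔸)).comp
    ((ContinuousLinearMap.mul ℝ 𝔸 (k : 𝔸)).comp m.subtypeL))

theorem adM_apply (P : 𝔸 →L[ℝ] m) (k : 𝔸ˣ) (u : m) : adM P k u = P (Adj k u) := by
  simp [adM, Adj]

theorem adM_coe (hN : NData g h m Q P) (hG : GrpD H h m Q h0 B c) {k : 𝔸ˣ} (hk : k ∈ H) (u : m) :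
    (adM P k u : 𝔸) = Adj k u := by
  rw [adM_apply]
  have h1 : P (Adj k u) = ⟨Adj k u, hG.adm k hk u u.2⟩ :=
    hN.red.P_m ⟨Adj k u, hG.adm k hk u u.2⟩
  rw [h1]

theorem Adj_lie (k : 𝔸ˣ) (X Y : 𝔸) : Adj k ⁅X, Y⁆ = ⁅Adj k X, Adj k Y⁆ := by
  have h1 : ((k⁻¹ : 𝔸ˣ) : 𝔸) * (k : 𝔸) = 1 := Units.inv_mul k
  simp only [Adj, Ring.lie_def]
  have e : ∀ A C : 𝔸, (k : 𝔸) * A * ((k⁻¹ : 𝔸ˣ) : 𝔸) * ((k : 𝔸) * C * ((k⁻¹ : 𝔸ˣ) : 𝔸)) =
      (k : 𝔸) * (A * C) * ((k⁻¹ : 𝔸ˣ) : 𝔸) := by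
    intro A C
    calc _ = (k : 𝔸) * A * (((k⁻¹ : 𝔸ˣ) : 𝔸) * (k : 𝔸)) * C * ((k⁻¹ : 𝔸ˣ) : 𝔸) := by
          noncomm_ring
      _ = _ := by rw [h1]; noncomm_ring
  rw [e, e]
  noncomm_ring

/-- infinitesimal invariance -/
theorem inv_of_InvH (hN : NData g h m Q P) (hG : GrpD H h m Q h0 B c)
    (hf : ContDiffOn ℝ ∞ φ {0}ᶜ) (hH : InvH H φ) :
    ∀ Y ∈ h, ∀ u : m, u ≠ 0 → D1 φ u (P ⁅Y, (u : 𝔸)⁆) = 0 := by
  intro Y hY u hu
  have : CompleteSpace 𝔸 := FiniteDimensional.complete ℝ 𝔸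
  have hR := hN.red
  -- the curve
  have hc : HasDerivAt (fun s : ℝ => P (NormedSpace.exp (s • Y) * (u : 𝔸)
      * NormedSpace.exp (s • (-Y)))) (P ⁅Y, (u : 𝔸)⁆) 0 := by
    have e1 := hasDerivAt_exp_smul_const (𝕂 := ℝ) Y (0 : ℝ)
    have e3 := hasDerivAt_exp_smul_const (𝕂 := ℝ) (-Y) (0 : ℝ)
    have e4 := (e1.mul_const (u : 𝔸)).mul e3
    have e5 := (P.hasFDerivAt (x := NormedSpace.exp ((0 : ℝ) • Y) * (u : 𝔸)
      * NormedSpace.exp ((0 : ℝ) • (-Y)))).comp_hasDerivAt (0 : ℝ) e4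
    refine e5.congr_deriv ?_
    simp only [zero_smul, NormedSpace.exp_zero, one_mul, mul_one, Ring.lie_def]
    congr 1
    noncomm_ring
  have hc0 : P (NormedSpace.exp ((0 : ℝ) • Y) * (u : 𝔸) * NormedSpace.exp ((0 : ℝ) • (-Y)))
      = u := by
    simp only [zero_smul, NormedSpace.exp_zero, one_mul, mul_one]
    exact hR.P_m u
  have hconst : ∀ s : ℝ, φ (P (NormedSpace.exp (s • Y) * (u : 𝔸)
      * NormedSpace.exp (s • (-Y)))) = φ u := by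
    intro s
    obtain ⟨k, hk, hk'⟩ := lieAlg_unit (hG.lie Y hY) s
    have e1 : NormedSpace.exp (s • Y) * (u : 𝔸) * NormedSpace.exp (s • (-Y)) = Adj k u := by
      rw [hk', smul_neg]
    rw [e1, ← adM_apply]
    exact hH k hk u _ (adM_coe hN hG hk u)
  have hd : HasDerivAt (fun s : ℝ => φ (P (NormedSpace.exp (s • Y) * (u : 𝔸)
      * NormedSpace.exp (s • (-Y))))) (fderiv ℝ φ u (P ⁅Y, (u : 𝔸)⁆)) 0 := by
    have h1 : HasFDerivAt φ (fderiv ℝ φ u) (P (NormedSpace.exp ((0 : ℝ) • Y)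
        * (u : 𝔸) * NormedSpace.exp ((0 : ℝ) • (-Y)))) := by
      rw [hc0]
      exact (differentiableAt_of_ne hf hu).hasFDerivAt
    exact h1.comp_hasDerivAt (0 : ℝ) hc
  have hd' : HasDerivAt (fun s : ℝ => φ (P (NormedSpace.exp (s • Y) * (u : 𝔸)
      * NormedSpace.exp (s • (-Y))))) 0 0 := by
    have : (fun s : ℝ => φ (P (NormedSpace.exp (s • Y) * (u : 𝔸)
      * NormedSpace.exp (s • (-Y))))) = fun _ => φ u := funext hconst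
    rw [this]
    exact hasDerivAt_const _ _
  exact hd.unique hd'

theorem adM_ne (hN : NData g h m Q P) (hG : GrpD H h m Q h0 B c) {k : 𝔸ˣ} (hk : k ∈ H) {u : m}
    (hu : u ≠ 0) : adM P k u ≠ 0 := by
  intro h1
  have h2 : Adj k (u : 𝔸) = 0 := by rw [← adM_coe hN hG hk u, h1]; rfl
  have h3 : (u : 𝔸) = 0 := by
    have h4 : ((k⁻¹ : 𝔸ˣ) : 𝔸) * Adj k (u : 𝔸) * (k : 𝔸) = u := by
      unfold Adj
      calc _ = (((k⁻¹ : 𝔸ˣ) : 𝔸) * (k : 𝔸)) * (u : 𝔸) * (((k⁻¹ : 𝔸ˣ) : 𝔸) * (k : 𝔸)) := by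
            noncomm_ring
        _ = _ := by rw [Units.inv_mul]; simp
    rw [← h4, h2]; simp
  exact hu (Subtype.ext h3)

theorem D1_adM (hN : NData g h m Q P) (hG : GrpD H h m Q h0 B c)
    (hf : ContDiffOn ℝ ∞ φ {0}ᶜ) (hH : InvH H φ) {k : 𝔸ˣ} (hk : k ∈ H) {u : m} (hu : u ≠ 0)
    (a : m) : D1 φ (adM P k u) (adM P k a) = D1 φ u a := by
  have h1 : HasFDerivAt (fun z => φ (adM P k z)) ((fderiv ℝ φ (adM P k u)).comp (adM P k)) u :=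
    (differentiableAt_of_ne hf (adM_ne hN hG hk hu)).hasFDerivAt.comp u (adM P k).hasFDerivAt
  have h2 : (fun z => φ (adM P k z)) = φ := funext fun z => hH k hk z _ (adM_coe hN hG hk z)
  rw [h2] at h1
  rw [D1, D1, h1.fderiv]; rfl

/-! ### the vector field `W` and the iterates -/

theorem Wt_coe (hN : NData g h m Q P) (hC : Cas g h m Q P h0 B c) (u : m) :
    (Wt P h0 B u : 𝔸) = ⁅h0, B u⁆ := by
  unfold Wt
  exact mem_m_of_h0 hN hC (lg hN (hN.red.h_le hC.mem) (hC.Bg u)) (Q_self_lie' hN _ _)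

theorem Wt_adM (hN : NData g h m Q P) (hC : Cas g h m Q P h0 B c) (hG : GrpD H h m Q h0 B c)
    {k : 𝔸ˣ} (hk : k ∈ H) (u : m) : Wt P h0 B (adM P k u) = adM P k (Wt P h0 B u) := by
  refine Subtype.ext ?_
  rw [Wt_coe hN hC, adM_coe hN hG hk, Wt_coe hN hC, Adj_lie, hG.adh0 k hk,
    hG.B k hk u _ (adM_coe hN hG hk u)]

theorem Wt_smooth (hC : Cas g h m Q P h0 B c) : ContDiffOn ℝ ∞ (Wt P h0 B) {0}ᶜ := by
  unfold Wt
  simp only [Ring.lie_def]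
  exact P.contDiff.comp_contDiffOn ((contDiffOn_const.mul hC.Bsm).sub (hC.Bsm.mul contDiffOn_const))

theorem Wt_hom (hC : Cas g h m Q P h0 B c) (r : ℝ) (u : m) :
    Wt P h0 B (r • u) = r • Wt P h0 B u := by
  unfold Wt
  rw [hC.Bhom, ← map_smul]
  congr 1
  simp only [Ring.lie_def, mul_smul_comm, smul_mul_assoc, smul_sub]

theorem aW_smooth (hC : Cas g h m Q P h0 B c) (hv : ContDiffOn ℝ ∞ v {0}ᶜ) (j : ℕ) :
    ContDiffOn ℝ ∞ (aW P h0 B v j) {0}ᶜ := by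
  induction j with
  | zero => exact hv
  | succ j ih => exact (smooth_fderiv ih).clm_apply (Wt_smooth hC)

theorem aW_hom (hC : Cas g h m Q P h0 B c) (hv : ContDiffOn ℝ ∞ v {0}ᶜ)
    (hh : ∀ (r : ℝ) (u : m), v (r • u) = r ^ 2 * v u) (j : ℕ) :
    ∀ (r : ℝ) (u : m), aW P h0 B v j (r • u) = r ^ 2 * aW P h0 B v j u := by
  induction j with
  | zero => exact hh
  | succ j ih =>
    intro r u
    have h2 : ∀ z : m, aW P h0 B v (j + 1) z = D1 (aW P h0 B v j) z (Wt P h0 B z) := fun _ => rfl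
    have h3 : Wt P h0 B (0 : m) = 0 := by
      have := Wt_hom hC 0 (0 : m)
      simpa using this
    rw [h2, h2]
    by_cases hr : r = 0
    · rw [hr, zero_smul, h3]
      unfold D1; simp
    by_cases hu : u = 0
    · rw [hu, smul_zero, h3]
      unfold D1; simp
    · rw [Wt_hom hC, D1_scale (aW_smooth hC hv j) ih hr hu]
      unfold D1
      rw [map_smul, smul_eq_mul]; ring

theorem aW_inv (hN : NData g h m Q P) (hC : Cas g h m Q P h0 B c) (hG : GrpD H h m Q h0 B c)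
    (hv : ContDiffOn ℝ ∞ v {0}ᶜ) (hH : InvH H v) (j : ℕ) : InvH H (aW P h0 B v j) := by
  induction j with
  | zero => exact hH
  | succ j ih =>
    intro k hk u u' huu
    have h2 : ∀ z : m, aW P h0 B v (j + 1) z = D1 (aW P h0 B v j) z (Wt P h0 B z) := fun _ => rfl
    have h3 : Wt P h0 B (0 : m) = 0 := by
      have := Wt_hom hC 0 (0 : m)
      simpa using this
    have h4 : u' = adM P k u := Subtype.ext (by rw [adM_coe hN hG hk, huu])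
    by_cases hu : u = 0
    · rw [h4, hu, map_zero]
    · rw [h2, h2, h4, Wt_adM hN hC hG hk, D1_adM hN hG (aW_smooth hC hv j) ih hk hu]

end Pool.Agent.helper79.FR
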