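import Pool.Agent.helper79.FR.CasB

/-!
# MP_f09395_gt, regular part: derivatives of sums, products and squares
-/

set_option linter.unusedSectionVars false

noncomputable section

namespace Pool.Agent.helper79.FR

open scoped ContDiff
open Pool.Agent.Helper93.Fin Pool.Agent.helper79.FP
open Filter Topology

variable {E : Type*} [NormedAddCommGroup E] [NormedSpace ℝ E] {f k q : E → ℝ}

theorem dAt {F : Type*} [NormedAddCommGroup F] [NormedSpace ℝ F] {f : E → F}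
    (hf : ContDiffOn ℝ ∞ f {0}ᶜ) {u : E} (hu : u ≠ 0) : DifferentiableAt ℝ f u :=
  (hf.contDiffAt (isOpen_compl_singleton.mem_nhds hu)).differentiableAt (by simp)

theorem fd_mul (hf : ContDiffOn ℝ ∞ f {0}ᶜ) (hk : ContDiffOn ℝ ∞ k {0}ᶜ) {u : E} (hu : u ≠ 0)
    (a : E) : fderiv ℝ (fun z => f z * k z) u a = f u * fderiv ℝ k u a + k u * fderiv ℝ f u a := by
  have h1 : HasFDerivAt (fun z => f z * k z) (f u • fderiv ℝ k u + k u • fderiv ℝ f u) u :=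
    (dAt hf hu).hasFDerivAt.mul (dAt hk hu).hasFDerivAt
  rw [h1.fderiv]; simp

theorem fd_add (hf : ContDiffOn ℝ ∞ f {0}ᶜ) (hk : ContDiffOn ℝ ∞ k {0}ᶜ) {u : E} (hu : u ≠ 0)
    (a : E) : fderiv ℝ (fun z => f z + k z) u a = fderiv ℝ f u a + fderiv ℝ k u a := by
  have h1 : HasFDerivAt (fun z => f z + k z) (fderiv ℝ f u + fderiv ℝ k u) u :=
    (dAt hf hu).hasFDerivAt.add (dAt hk hu).hasFDerivAt
  rw [h1.fderiv]; simp

theorem fd_cmul (r : ℝ) (hf : ContDiffOn ℝ ∞ f {0}ᶜ) {u : E} (hu : u ≠ 0)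
    (a : E) : fderiv ℝ (fun z => r * f z) u a = r * fderiv ℝ f u a := by
  have h1 : HasFDerivAt (fun z => r * f z) (r • fderiv ℝ f u) u :=
    (dAt hf hu).hasFDerivAt.const_mul r
  rw [h1.fderiv]; simp

theorem fd_congr {f f' : E → ℝ} (hf : ∀ z : E, z ≠ 0 → f z = f' z) {u : E} (hu : u ≠ 0) (a : E) :
    fderiv ℝ f u a = fderiv ℝ f' u a := by
  have h1 : f =ᶠ[𝓝 u] f' := (eventually_ne' hu).mono hf
  rw [h1.fderiv_eq]

/-! ### sums -/

theorem D1_sum (hf : ContDiffOn ℝ ∞ f {0}ᶜ) (hk : ContDiffOn ℝ ∞ k {0}ᶜ) {u : E} (hu : u ≠ 0)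
    (a : E) : D1 (fun z => f z + k z) u a = D1 f u a + D1 k u a := fd_add hf hk hu a

theorem D2_sum (hf : ContDiffOn ℝ ∞ f {0}ᶜ) (hk : ContDiffOn ℝ ∞ k {0}ᶜ) {u : E} (hu : u ≠ 0)
    (a b : E) : D2 (fun z => f z + k z) u a b = D2 f u a b + D2 k u a b := by
  unfold D2
  rw [fd_congr (fun z hz => D1_sum hf hk hz a) hu, fd_add (D1_smooth hf a) (D1_smooth hk a) hu]

theorem D3_sum (hf : ContDiffOn ℝ ∞ f {0}ᶜ) (hk : ContDiffOn ℝ ∞ k {0}ᶜ) {u : E} (hu : u ≠ 0)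
    (a b c : E) : D3 (fun z => f z + k z) u a b c = D3 f u a b c + D3 k u a b c := by
  unfold D3
  rw [fd_congr (fun z hz => D2_sum hf hk hz a b) hu,
    fd_add (D2_smooth hf a b) (D2_smooth hk a b) hu]

theorem D4_sum (hf : ContDiffOn ℝ ∞ f {0}ᶜ) (hk : ContDiffOn ℝ ∞ k {0}ᶜ) {u : E} (hu : u ≠ 0)
    (a b c d : E) : D4 (fun z => f z + k z) u a b c d = D4 f u a b c d + D4 k u a b c d := by
  unfold D4
  rw [fd_congr (fun z hz => D3_sum hf hk hz a b c) hu,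
    fd_add (D3_smooth hf a b c) (D3_smooth hk a b c) hu]

/-! ### products -/

theorem D1_mul (hf : ContDiffOn ℝ ∞ f {0}ᶜ) (hk : ContDiffOn ℝ ∞ k {0}ᶜ) {u : E} (hu : u ≠ 0)
    (a : E) : D1 (fun z => f z * k z) u a = f u * D1 k u a + k u * D1 f u a := fd_mul hf hk hu a

theorem D2_mul (hf : ContDiffOn ℝ ∞ f {0}ᶜ) (hk : ContDiffOn ℝ ∞ k {0}ᶜ) {u : E} (hu : u ≠ 0)
    (a b : E) : D2 (fun z => f z * k z) u a b = f u * D2 k u a b + D1 k u a * D1 f u b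
      + (k u * D2 f u a b + D1 f u a * D1 k u b) := by
  rw [D2]
  rw [fd_congr (fun z hz => D1_mul hf hk hz a) hu, fd_add (hf.mul (D1_smooth hk a))
    (hk.mul (D1_smooth hf a)) hu, fd_mul hf (D1_smooth hk a) hu, fd_mul hk (D1_smooth hf a) hu]
  rfl

/-! ### squares -/

theorem sq_smooth (r : ℝ) (hq : ContDiffOn ℝ ∞ q {0}ᶜ) :
    ContDiffOn ℝ ∞ (fun z => r * q z ^ 2) {0}ᶜ := contDiffOn_const.mul (hq.pow 2)

theorem sq_D1 (r : ℝ) (hq : ContDiffOn ℝ ∞ q {0}ᶜ) {u : E} (hu : u ≠ 0) (a : E) :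
    D1 (fun z => r * q z ^ 2) u a = 2 * r * (q u * D1 q u a) := by
  rw [D1]
  have h1 : (fun z => r * q z ^ 2) = fun z => r * (q z * q z) := funext fun z => by ring
  rw [h1, fd_cmul r (hq.mul hq) hu, fd_mul hq hq hu]
  unfold D1; ring

theorem sq_D2 (r : ℝ) (hq : ContDiffOn ℝ ∞ q {0}ᶜ) {u : E} (hu : u ≠ 0) (a b : E) :
    D2 (fun z => r * q z ^ 2) u a b = 2 * r * (q u * D2 q u a b + D1 q u a * D1 q u b) := by
  rw [D2, fd_congr (fun z hz => sq_D1 r hq hz a) hu, fd_cmul _ (hq.mul (D1_smooth hq a)) hu,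
    fd_mul hq (D1_smooth hq a) hu]
  rfl

theorem sq_D3 (r : ℝ) (hq : ContDiffOn ℝ ∞ q {0}ᶜ) {u : E} (hu : u ≠ 0) (a b c : E) :
    D3 (fun z => r * q z ^ 2) u a b c = 2 * r * ((q u * D3 q u a b c + D2 q u a b * D1 q u c)
      + (D1 q u a * D2 q u b c + D1 q u b * D2 q u a c)) := by
  rw [D3, fd_congr (fun z hz => sq_D2 r hq hz a b) hu,
    fd_cmul _ ((hq.mul (D2_smooth hq a b)).add ((D1_smooth hq a).mul (D1_smooth hq b))) hu,
    fd_add (hq.mul (D2_smooth hq a b)) ((D1_smooth hq a).mul (D1_smooth hq b)) hu,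
    fd_mul hq (D2_smooth hq a b) hu, fd_mul (D1_smooth hq a) (D1_smooth hq b) hu]
  rfl

theorem sq_D4 (r : ℝ) (hq : ContDiffOn ℝ ∞ q {0}ᶜ) {u : E} (hu : u ≠ 0) (a b c d : E) :
    D4 (fun z => r * q z ^ 2) u a b c d = 2 * r * (((q u * D4 q u a b c d + D3 q u a b c * D1 q u d)
      + (D2 q u a b * D2 q u c d + D1 q u c * D3 q u a b d))
      + ((D1 q u a * D3 q u b c d + D2 q u b c * D2 q u a d)
      + (D1 q u b * D3 q u a c d + D2 q u a c * D2 q u b d))) := by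
  have s1 := hq.mul (D3_smooth hq a b c)
  have s2 := (D2_smooth hq a b).mul (D1_smooth hq c)
  have s3 := (D1_smooth hq a).mul (D2_smooth hq b c)
  have s4 := (D1_smooth hq b).mul (D2_smooth hq a c)
  rw [D4, fd_congr (fun z hz => sq_D3 r hq hz a b c) hu,
    fd_cmul _ ((s1.add s2).add (s3.add s4)) hu,
    fd_add (s1.add s2) (s3.add s4) hu, fd_add s1 s2 hu, fd_add s3 s4 hu,
    fd_mul hq (D3_smooth hq a b c) hu, fd_mul (D2_smooth hq a b) (D1_smooth hq c) hu,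
    fd_mul (D1_smooth hq a) (D2_smooth hq b c) hu, fd_mul (D1_smooth hq b) (D2_smooth hq a c) hu]
  rfl

/-! ### composition with a function of one variable -/

theorem comp_smooth {l : ℝ → ℝ} (hl : ContDiff ℝ ∞ l) (hf : ContDiffOn ℝ ∞ f {0}ᶜ) :
    ContDiffOn ℝ ∞ (fun z => l (f z)) {0}ᶜ := hl.comp_contDiffOn hf

theorem comp_D1 {l : ℝ → ℝ} (hl : ContDiff ℝ ∞ l) (hf : ContDiffOn ℝ ∞ f {0}ᶜ) {u : E}
    (hu : u ≠ 0) (a : E) : D1 (fun z => l (f z)) u a = deriv l (f u) * D1 f u a := by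
  have h1 : HasDerivAt l (deriv l (f u)) (f u) :=
    (hl.differentiable (by simp)).differentiableAt.hasDerivAt
  have h2 : HasFDerivAt (fun z => l (f z)) (deriv l (f u) • fderiv ℝ f u) u :=
    h1.comp_hasFDerivAt u (dAt hf hu).hasFDerivAt
  rw [D1, h2.fderiv]; simp [D1]

theorem comp_D2 {l : ℝ → ℝ} (hl : ContDiff ℝ ∞ l) (hf : ContDiffOn ℝ ∞ f {0}ᶜ) {u : E}
    (hu : u ≠ 0) (a b : E) : D2 (fun z => l (f z)) u a b =
      deriv l (f u) * D2 f u a b + D1 f u a * (deriv (deriv l) (f u) * D1 f u b) := by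
  have hl' : ContDiff ℝ ∞ (deriv l) := (contDiff_infty_iff_deriv.1 hl).2
  rw [D2, fd_congr (fun z hz => comp_D1 hl hf hz a) hu,
    fd_mul (comp_smooth hl' hf) (D1_smooth hf a) hu]
  have h1 : fderiv ℝ (fun z => deriv l (f z)) u b = deriv (deriv l) (f u) * D1 f u b :=
    comp_D1 hl' hf hu b
  rw [h1]; rfl

end Pool.Agent.helper79.FR
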