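import Pool.Agent.helper79.FR.Cont

/-!
# MP_f09395_gt, regular part: consequences of the rank two data
-/

set_option linter.unusedSectionVars false

noncomputable section

namespace Pool.Agent.helper79.FR

open scoped ContDiff
open Pool.Agent.Helper93.Fin Pool.Agent.helper79.FP
open Filter Topology

variable {𝔸 : Type*} [NormedRing 𝔸] [NormedAlgebra ℝ 𝔸] [FiniteDimensional ℝ 𝔸]
variable {g h m : Submodule ℝ 𝔸} {Q : 𝔸 →ₗ[ℝ] 𝔸 →ₗ[ℝ] ℝ} {P : 𝔸 →L[ℝ] m} {φ ψ : m → ℝ}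
variable {h0 : 𝔸} {B : m → 𝔸} {c : m → ℝ}

theorem mem_m_of_perp (hN : NData g h m Q P) {X : 𝔸} (hX : X ∈ g) (h2 : ∀ Y ∈ h, Q Y X = 0) :
    (P X : 𝔸) = X := by
  have h1 := hN.red.res _ hX
  have h3 : Q (X - (P X : 𝔸)) (X - (P X : 𝔸)) = 0 := by
    rw [map_sub, h2 _ h1, hN.Qhm _ h1 _ (P X).2, sub_zero]
  have h4 := Q_zero hN (hN.red.h_le h1) h3.le
  exact (sub_eq_zero.1 h4).symm

theorem mem_m_of_h0 (hN : NData g h m Q P) (hC : Cas g h m Q P h0 B c) {X : 𝔸} (hX : X ∈ g)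
    (h2 : Q h0 X = 0) : (P X : 𝔸) = X := by
  refine mem_m_of_perp hN hX fun Y hY => ?_
  obtain ⟨r, rfl⟩ := hC.span Y hY
  rw [map_smul, LinearMap.smul_apply, h2, smul_zero]

/-- the cubic invariant -/
def qc {m : Submodule ℝ 𝔸} (Q : 𝔸 →ₗ[ℝ] 𝔸 →ₗ[ℝ] ℝ) (h0 : 𝔸) (B : m → 𝔸) (u : m) : ℝ :=
  Q h0 (B u)

theorem qc_eq : (qc Q h0 B : m → ℝ) = fun u => Qc Q h0 (B u) := rfl

theorem qc_smooth (hC : Cas g h m Q P h0 B c) : ContDiffOn ℝ ∞ (qc Q h0 B) {0}ᶜ :=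
  (Qc Q h0).contDiff.comp_contDiffOn hC.Bsm

theorem qc_hom (hC : Cas g h m Q P h0 B c) (r : ℝ) (u : m) : qc Q h0 B (r • u) = r * qc Q h0 B u := by
  unfold qc
  rw [hC.Bhom, map_smul, smul_eq_mul]

theorem diffAt_ne {F : Type*} [NormedAddCommGroup F] [NormedSpace ℝ F] {f : m → F}
    (hf : ContDiffOn ℝ ∞ f {0}ᶜ) {u : m} (hu : u ≠ 0) : DifferentiableAt ℝ f u :=
  (hf.contDiffAt (isOpen_compl_singleton.mem_nhds hu)).differentiableAt (by simp)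

theorem qc_D1 (hC : Cas g h m Q P h0 B c) {u : m} (hu : u ≠ 0) (v : m) :
    D1 (qc Q h0 B) u v = Q h0 (fderiv ℝ B u v) := by
  rw [D1, qc_eq]
  have h1 := (Qc Q h0).hasFDerivAt.comp u (diffAt_ne hC.Bsm hu).hasFDerivAt
  have h2 : HasFDerivAt (fun u => Qc Q h0 (B u)) ((Qc Q h0).comp (fderiv ℝ B u)) u := h1
  rw [h2.fderiv]
  rfl

/-- the great circle -/
def circ (u b : m) (τ : ℝ) : m := Real.cos τ • u + Real.sin τ • b

/-- its tangent -/
def circ' (u b : m) (τ : ℝ) : m := -Real.sin τ • u + Real.cos τ • b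

theorem circ_deriv (u b : m) (τ : ℝ) : HasDerivAt (circ u b) (circ' u b τ) τ := by
  unfold circ circ'
  exact ((Real.hasDerivAt_cos τ).smul_const u).add ((Real.hasDerivAt_sin τ).smul_const b)

theorem circ'_deriv (u b : m) (τ : ℝ) : HasDerivAt (circ' u b) (-circ u b τ) τ := by
  unfold circ circ'
  have h1 := ((Real.hasDerivAt_sin τ).neg.smul_const u).add
    ((Real.hasDerivAt_cos τ).smul_const b)
  have e : -(Real.cos τ • u + Real.sin τ • b) = -Real.cos τ • u + -Real.sin τ • b := by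
    module
  rw [e]
  exact h1

theorem circ_zero (u b : m) : circ u b 0 = u := by simp [circ]

theorem circ'_zero (u b : m) : circ' u b 0 = b := by simp [circ']

theorem lie_comb (a b a' b' : ℝ) (X Y : 𝔸) (h0 : ⁅X, Y⁆ = 0) :
    ⁅a • X + b • Y, a' • X + b' • Y⁆ = 0 := by
  have h1 : X * Y = Y * X := sub_eq_zero.1 h0
  simp only [Ring.lie_def, add_mul, mul_add, smul_mul_smul_comm, h1]
  module

theorem circ_flag (hN : NData g h m Q P) {u b : m} (hF : Flag Q u b) (τ : ℝ) :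
    Flag Q (circ u b τ) (circ' u b τ) := by
  obtain ⟨h1, h2, h3, h4⟩ := hF
  have h3' : Q (b : 𝔸) u = 0 := by rw [hN.Qsymm, h3]
  have e := Real.sin_sq_add_cos_sq τ
  refine ⟨?_, ?_, ?_, ?_⟩
  · simp only [circ, Submodule.coe_add, Submodule.coe_smul, map_add, map_smul,
      LinearMap.add_apply, LinearMap.smul_apply, smul_eq_mul, h1, h2, h3, h3']
    linear_combination e
  · simp only [circ', Submodule.coe_add, Submodule.coe_smul, map_add, map_smul,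
      LinearMap.add_apply, LinearMap.smul_apply, smul_eq_mul, h1, h2, h3, h3']
    linear_combination e
  · simp only [circ, circ', Submodule.coe_add, Submodule.coe_smul, map_add, map_smul,
      LinearMap.add_apply, LinearMap.smul_apply, smul_eq_mul, h1, h2, h3, h3']
    ring
  · simp only [circ, circ', Submodule.coe_add, Submodule.coe_smul]
    exact lie_comb _ _ _ _ _ _ h4

theorem flag_q (hN : NData g h m Q P) (hC : Cas g h m Q P h0 B c) {u b : m} (hF : Flag Q u b) :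
    qc Q h0 B u = 0 := by
  unfold qc
  rw [hC.flat u b hF, map_smul, hN.Qhm h0 hC.mem b b.2, smul_zero]

theorem comp_circ {F : Type*} [NormedAddCommGroup F] [NormedSpace ℝ F] {f : m → F}
    (hf : ContDiffOn ℝ ∞ f {0}ᶜ) {u b : m} {τ : ℝ} (hu : circ u b τ ≠ 0) :
    HasDerivAt (fun τ => f (circ u b τ)) (fderiv ℝ f (circ u b τ) (circ' u b τ)) τ :=
  (diffAt_ne hf hu).hasFDerivAt.comp_hasDerivAt τ (circ_deriv u b τ)

theorem flag_q1 (hN : NData g h m Q P) (hC : Cas g h m Q P h0 B c) {u b : m} (hF : Flag Q u b) :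
    D1 (qc Q h0 B) u b = 0 := by
  have h1 := comp_circ (qc_smooth hC) (u := u) (b := b) (τ := 0)
    (by rw [circ_zero]; exact hF.ne hN)
  rw [circ_zero, circ'_zero] at h1
  have h2 : (fun τ => qc Q h0 B (circ u b τ)) = fun _ => 0 :=
    funext fun τ => flag_q hN hC (circ_flag hN hF τ)
  rw [h2] at h1
  exact h1.unique (hasDerivAt_const (0 : ℝ) (0 : ℝ))

theorem qc_euler (hC : Cas g h m Q P h0 B c) {u : m} (hu : u ≠ 0) :
    D1 (qc Q h0 B) u u = qc Q h0 B u := by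
  have h1 : HasDerivAt (fun r : ℝ => r • u) u 1 := by
    simpa using (hasDerivAt_id (1 : ℝ)).smul_const u
  have h2 : DifferentiableAt ℝ (qc Q h0 B) ((1 : ℝ) • u) := by
    rw [one_smul]; exact diffAt_ne (qc_smooth hC) hu
  have h3 := h2.hasFDerivAt.comp_hasDerivAt (1 : ℝ) h1
  rw [one_smul] at h3
  have h4 : (qc Q h0 B ∘ fun r : ℝ => r • u) = fun r => r * qc Q h0 B u :=
    funext fun r => qc_hom hC r u
  rw [h4] at h3
  have h5 : HasDerivAt (fun r : ℝ => r * qc Q h0 B u) (qc Q h0 B u) 1 := by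
    simpa using (hasDerivAt_id (1 : ℝ)).mul_const (qc Q h0 B u)
  exact h3.unique h5

theorem flag_q2 (hN : NData g h m Q P) (hC : Cas g h m Q P h0 B c) {u b : m} (hF : Flag Q u b) :
    D2 (qc Q h0 B) u b b = 0 := by
  have hu := hF.ne hN
  have hs := qc_smooth hC
  have hc0 : circ u b 0 ≠ 0 := by rw [circ_zero]; exact hu
  have h1 := comp_circ (D1_smooth hs b) (u := u) (b := b) (τ := 0) hc0
  have h2 := comp_circ (D1_smooth hs u) (u := u) (b := b) (τ := 0) hc0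
  have h3 := (Real.hasDerivAt_cos 0).mul h1
  have h4 := (Real.hasDerivAt_sin 0).mul h2
  have h5 := h3.sub h4
  simp only [circ_zero, circ'_zero, Real.sin_zero, Real.cos_zero] at h5
  have h6 : (fun τ => Real.cos τ * D1 (qc Q h0 B) (circ u b τ) b) -
      (fun τ => Real.sin τ * D1 (qc Q h0 B) (circ u b τ) u) = fun _ => 0 := by
    funext τ
    have h7 := flag_q1 hN hC (circ_flag hN hF τ)
    have h8 : D1 (qc Q h0 B) (circ u b τ) (circ' u b τ) = -Real.sin τ *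
        D1 (qc Q h0 B) (circ u b τ) u + Real.cos τ * D1 (qc Q h0 B) (circ u b τ) b := by
      unfold D1 circ'
      rw [map_add, map_smul, map_smul, smul_eq_mul, smul_eq_mul]
    simp only [Pi.sub_apply]
    rw [h8] at h7
    linear_combination h7
  have h9 : HasDerivAt ((fun τ => Real.cos τ * D1 (qc Q h0 B) (circ u b τ) b) -
      (fun τ => Real.sin τ * D1 (qc Q h0 B) (circ u b τ) u)) _ 0 := h5
  rw [h6] at h9
  have h10 := h9.unique (hasDerivAt_const (0 : ℝ) (0 : ℝ))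
  rw [qc_euler hC hu, flag_q hN hC hF] at h10
  unfold D2
  linear_combination h10

/-- derivative of `B` along a flat circle -/
theorem flag_B (hN : NData g h m Q P) (hC : Cas g h m Q P h0 B c) {u b : m} (hF : Flag Q u b) :
    ∃ w' : ℝ, fderiv ℝ B u b = w' • (b : 𝔸) - (Q (B u) b) • (u : 𝔸) := by
  have hu := hF.ne hN
  have hc0 : circ u b 0 ≠ 0 := by rw [circ_zero]; exact hu
  have h1 := comp_circ hC.Bsm (u := u) (b := b) (τ := 0) hc0
  have hv : HasDerivAt (fun τ => (circ' u b τ : 𝔸)) ((-circ u b 0 : m) : 𝔸) 0 :=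
    (m.subtypeL.hasFDerivAt.comp_hasDerivAt (0 : ℝ) (circ'_deriv u b 0))
  obtain ⟨w, hw⟩ : ∃ w : ℝ → ℝ, w = fun τ => Q (B (circ u b τ)) (circ' u b τ) := ⟨_, rfl⟩
  have h2 : HasDerivAt w (Q (fderiv ℝ B u b) b + Q (B u) ((-circ u b 0 : m) : 𝔸)) 0 := by
    have h3 : HasDerivAt (fun τ => Qc Q (B (circ u b τ))) (Qc Q (fderiv ℝ B (circ u b 0)
      (circ' u b 0))) 0 := (Qc Q).hasFDerivAt.comp_hasDerivAt (0 : ℝ) h1
    have h4 := h3.clm_apply hv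
    rw [circ_zero, circ'_zero] at h4
    rw [hw]
    rw [circ_zero]
    exact h4
  have h5 := h2.smul hv
  have h6 : (w • fun τ => (circ' u b τ : 𝔸)) = fun τ => B (circ u b τ) := by
    funext τ
    rw [Pi.smul_apply', hw]
    exact (hC.flat _ _ (circ_flag hN hF τ)).symm
  have h7 : HasDerivAt (w • fun τ => (circ' u b τ : 𝔸)) _ 0 := h5
  rw [h6] at h7
  have h8 := h1.unique h7
  rw [circ_zero, circ'_zero] at h8
  obtain ⟨r, hr⟩ : ∃ r : ℝ, r = Q (fderiv ℝ B u b) b + Q (B u) ((-u : m) : 𝔸) := ⟨_, rfl⟩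
  rw [← hr] at h8
  refine ⟨r, ?_⟩
  rw [h8, hw]
  simp only [circ_zero, circ'_zero, Submodule.coe_neg, smul_neg]
  abel

theorem Bequi' (hN : NData g h m Q P) (hC : Cas g h m Q P h0 B c) {u : m} (hu : u ≠ 0) {X : 𝔸}
    (hX : X ∈ g) (hm : (P ⁅(u : 𝔸), X⁆ : 𝔸) = ⁅(u : 𝔸), X⁆) :
    D1 (qc Q h0 B) u (P ⁅(u : 𝔸), X⁆) = Q h0 ⁅B u, X⁆ := by
  rw [qc_D1 hC hu, hC.Bequi u hu X hX (hm ▸ (P ⁅(u : 𝔸), X⁆).2)]

theorem smul_lie' (r : ℝ) (X Y : 𝔸) : ⁅r • X, Y⁆ = r • ⁅X, Y⁆ := by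
  simp only [Ring.lie_def, smul_mul_assoc, mul_smul_comm, smul_sub]

theorem add_lie' (X Y Z : 𝔸) : ⁅X + Y, Z⁆ = ⁅X, Z⁆ + ⁅Y, Z⁆ := by
  simp only [Ring.lie_def, add_mul, mul_add]; abel

theorem sub_lie' (X Y Z : 𝔸) : ⁅X - Y, Z⁆ = ⁅X, Z⁆ - ⁅Y, Z⁆ := by
  simp only [Ring.lie_def, sub_mul, mul_sub]; abel

/-- the mixed second derivative of `q` -/
theorem flag_mixed (hN : NData g h m Q P) (hC : Cas g h m Q P h0 B c) {u b : m} (hF : Flag Q u b)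
    {X : 𝔸} (hX : X ∈ g) (hm : (P ⁅(u : 𝔸), X⁆ : 𝔸) = ⁅(u : 𝔸), X⁆)
    (hm' : (P ⁅(b : 𝔸), X⁆ : 𝔸) = ⁅(b : 𝔸), X⁆) :
    D2 (qc Q h0 B) u (P ⁅(u : 𝔸), X⁆) b + D1 (qc Q h0 B) u (P ⁅(b : 𝔸), X⁆) = 0 := by
  have hu := hF.ne hN
  have hs := qc_smooth hC
  obtain ⟨w', hw'⟩ := flag_B hN hC hF
  -- the line `u + τ b`
  have hl : HasDerivAt (fun τ : ℝ => u + τ • b) b 0 := by
    simpa using ((hasDerivAt_id (0 : ℝ)).smul_const b).const_add u
  have hz : u + (0 : ℝ) • b = u := by rw [zero_smul, add_zero]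
  have d1 : ∀ a : m, HasDerivAt (fun τ : ℝ => D1 (qc Q h0 B) (u + τ • b) a)
      (D2 (qc Q h0 B) u a b) 0 := by
    intro a
    have h1 : DifferentiableAt ℝ (fun z => D1 (qc Q h0 B) z a) (u + (0 : ℝ) • b) := by
      rw [hz]; exact diffAt_ne (D1_smooth hs a) hu
    have h2 := h1.hasFDerivAt.comp_hasDerivAt (0 : ℝ) hl
    rw [hz] at h2
    exact h2
  have dB : HasDerivAt (fun τ : ℝ => Q h0 ⁅B (u + τ • b), X⁆) (Q h0 ⁅fderiv ℝ B u b, X⁆) 0 := by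
    have h1 : DifferentiableAt ℝ B (u + (0 : ℝ) • b) := by
      rw [hz]; exact diffAt_ne hC.Bsm hu
    have h2 := h1.hasFDerivAt.comp_hasDerivAt (0 : ℝ) hl
    rw [hz] at h2
    have h3 : HasDerivAt (fun τ : ℝ => B (u + τ • b) * X - X * B (u + τ • b))
        (fderiv ℝ B u b * X - X * fderiv ℝ B u b) 0 :=
      (h2.mul_const X).sub (h2.const_mul X)
    exact (Qc Q h0).hasFDerivAt.comp_hasDerivAt (0 : ℝ) h3
  have hne : ∀ᶠ τ : ℝ in 𝓝 0, u + τ • b ≠ 0 := by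
    have h1 := hl.continuousAt.tendsto
    rw [hz] at h1
    exact h1.eventually (eventually_ne' hu)
  have he : (fun τ : ℝ => D1 (qc Q h0 B) (u + τ • b) (P ⁅(u : 𝔸), X⁆) +
      τ * D1 (qc Q h0 B) (u + τ • b) (P ⁅(b : 𝔸), X⁆)) =ᶠ[𝓝 0]
      fun τ : ℝ => Q h0 ⁅B (u + τ • b), X⁆ := by
    filter_upwards [hne] with τ hτ
    have e1 : ⁅((u + τ • b : m) : 𝔸), X⁆ = ⁅(u : 𝔸), X⁆ + τ • ⁅(b : 𝔸), X⁆ := by
      rw [Submodule.coe_add, Submodule.coe_smul, add_lie', smul_lie']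
    have e2 : (P ⁅((u + τ • b : m) : 𝔸), X⁆ : 𝔸) = ⁅((u + τ • b : m) : 𝔸), X⁆ := by
      rw [e1, map_add, map_smul, Submodule.coe_add, Submodule.coe_smul, hm, hm']
    have e3 := Bequi' hN hC hτ hX e2
    rw [← e3, e1, map_add, map_smul]
    unfold D1
    rw [map_add, map_smul, smul_eq_mul]
  have h3 := (d1 (P ⁅(u : 𝔸), X⁆)).add ((hasDerivAt_id (0 : ℝ)).mul (d1 (P ⁅(b : 𝔸), X⁆)))
  have h4 : HasDerivAt (fun τ : ℝ => D1 (qc Q h0 B) (u + τ • b) (P ⁅(u : 𝔸), X⁆) +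
      τ * D1 (qc Q h0 B) (u + τ • b) (P ⁅(b : 𝔸), X⁆)) _ 0 := h3
  have h5 := (dB.congr_of_eventuallyEq he).unique h4
  rw [hz] at h5
  have h6 : Q h0 ⁅fderiv ℝ B u b, X⁆ = 0 := by
    rw [hw', sub_lie', smul_lie', smul_lie', map_sub, map_smul, map_smul, ← hm, ← hm',
      hN.Qhm h0 hC.mem _ (P ⁅(u : 𝔸), X⁆).2, hN.Qhm h0 hC.mem _ (P ⁅(b : 𝔸), X⁆).2]
    simp
  rw [h6] at h5
  simp only [id_eq, zero_mul, add_zero, one_mul] at h5
  exact h5.symm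

/-! ### the function `c` -/

theorem flag_c1 (hN : NData g h m Q P) (hC : Cas g h m Q P h0 B c) {u b : m} (hF : Flag Q u b) :
    D1 c u b = -4 * Q (B u) b := by
  have h1 := hC.cD u (hF.ne hN) b
  rw [hF.1, mul_one] at h1
  exact h1

theorem h0b_mem (hN : NData g h m Q P) (hC : Cas g h m Q P h0 B c) (b : m) :
    (P ⁅h0, (b : 𝔸)⁆ : 𝔸) = ⁅h0, (b : 𝔸)⁆ := by
  have h1 : (⟨⁅h0, (b : 𝔸)⁆, hN.red.ad h0 hC.mem b b.2⟩ : m) = P ⁅h0, (b : 𝔸)⁆ :=
    (hN.red.P_m ⟨⁅h0, (b : 𝔸)⁆, hN.red.ad h0 hC.mem b b.2⟩).symm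
  rw [← h1]

theorem flag_c0 (hN : NData g h m Q P) (hC : Cas g h m Q P h0 B c) {u b : m} (hF : Flag Q u b) :
    D1 c u (P ⁅h0, (b : 𝔸)⁆) = 0 := by
  have h1 := hC.cD u (hF.ne hN) (P ⁅h0, (b : 𝔸)⁆)
  rw [hF.1, mul_one, h0b_mem hN hC, hC.flat u b hF, map_smul, LinearMap.smul_apply,
    Q_self_lie hN, smul_zero, mul_zero] at h1
  exact h1

theorem flag_c2 (hN : NData g h m Q P) (hC : Cas g h m Q P h0 B c) {u b : m} (hF : Flag Q u b) :
    D2 c u b (P ⁅h0, (b : 𝔸)⁆) = 0 := by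
  have hu := hF.ne hN
  obtain ⟨w', hw'⟩ := flag_B hN hC hF
  obtain ⟨a, ha⟩ : ∃ a : m, a = P ⁅h0, (b : 𝔸)⁆ := ⟨_, rfl⟩
  have ha' : (a : 𝔸) = ⁅h0, (b : 𝔸)⁆ := by rw [ha, h0b_mem hN hC]
  rw [← ha, D2_symm hC.csm hu]
  -- differentiate `D1 c z a * Q z z = -4 Q (B z) a`
  have h1 : HasFDerivAt (fun z : m => D1 c z a * BN m Q z z)
      (D1 c u a • ((BN m Q u).comp (ContinuousLinearMap.id ℝ m) + (BN m Q).flip (id u)) +
        BN m Q u u • fderiv ℝ (fun z => D1 c z a) u) u :=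
    (diffAt_ne (D1_smooth hC.csm a) hu).hasFDerivAt.mul
      (((BN m Q).hasFDerivAt).clm_apply (hasFDerivAt_id u))
  have h2 : HasFDerivAt (fun z : m => -4 * (Qc Q).flip a (B z))
      ((-4 : ℝ) • ((Qc Q).flip a).comp (fderiv ℝ B u)) u :=
    (((Qc Q).flip (a : 𝔸)).hasFDerivAt.comp u (diffAt_ne hC.Bsm hu).hasFDerivAt).const_mul (-4)
  have h3 : (fun z : m => D1 c z a * BN m Q z z) =ᶠ[𝓝 u] fun z : m => -4 * (Qc Q).flip a (B z) := by
    filter_upwards [eventually_ne' hu] with z hz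
    rw [BN_apply]
    exact hC.cD z hz a
  have h4 := (h2.congr_of_eventuallyEq h3).unique h1
  have h5 := DFunLike.congr_fun h4 b
  simp only [_root_.add_apply, _root_.smul_apply,
    ContinuousLinearMap.comp_apply, ContinuousLinearMap.flip_apply, smul_eq_mul, Qc_apply,
    BN_apply, ContinuousLinearMap.id_apply, id_eq] at h5
  have h6 : Q (b : 𝔸) u = 0 := by rw [hN.Qsymm]; exact hF.2.2.1
  have h7 : Q (fderiv ℝ B u b) a = 0 := by
    rw [hw', map_sub, map_smul, map_smul, LinearMap.sub_apply, LinearMap.smul_apply,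
      LinearMap.smul_apply, ha', Q_self_lie hN]
    have h8 : Q (u : 𝔸) ⁅h0, (b : 𝔸)⁆ = 0 := by
      rw [skew h0, map_neg, ← hN.Qinv, hF.2.2.2]
      simp
    rw [h8]; simp
  rw [h7, hF.1, hF.2.2.1, h6] at h5
  have h9 : D2 c u a b = (fderiv ℝ (fun z => D1 c z a) u) b := rfl
  rw [h9]
  linarith

end Pool.Agent.helper79.FR
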