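import Pool.Agent.helper79.FP.Admits

/-!
# MP_f09395_gt, regular part: definitions

`𝔥 = ℝ h₀` is one-dimensional, `𝔤` has rank two; `B u` is the component orthogonal to `u` of the
gradient of the quartic invariant, `c u = cos 4θ`, where `θ` is the angle of `u` in a Weyl chamber.
-/

set_option linter.unusedSectionVars false

noncomputable section

namespace Pool.Agent.helper79.FR

open scoped ContDiff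
open Pool.Agent.Helper93.Fin Pool.Agent.helper79.FP
open Filter Topology

variable {𝔸 : Type*} [NormedRing 𝔸] [NormedAlgebra ℝ 𝔸]

/-- unit flat flags -/
def Flag {m : Submodule ℝ 𝔸} (Q : 𝔸 →ₗ[ℝ] 𝔸 →ₗ[ℝ] ℝ) (u b : m) : Prop :=
  Q (u : 𝔸) u = 1 ∧ Q (b : 𝔸) b = 1 ∧ Q (u : 𝔸) b = 0 ∧ ⁅(u : 𝔸), (b : 𝔸)⁆ = 0

/-- rank two data: `B` is the gradient of the quartic invariant without its radial part,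
`c = cos 4θ` -/
structure Cas (g h m : Submodule ℝ 𝔸) (Q : 𝔸 →ₗ[ℝ] 𝔸 →ₗ[ℝ] ℝ) (P : 𝔸 →L[ℝ] m) (h0 : 𝔸)
    (B : m → 𝔸) (c : m → ℝ) : Prop where
  mem : h0 ∈ h
  span : ∀ Y ∈ h, ∃ r : ℝ, Y = r • h0
  Bsm : ContDiffOn ℝ ∞ B {0}ᶜ
  Bg : ∀ u : m, B u ∈ g
  Bhom : ∀ (r : ℝ) (u : m), B (r • u) = r • B u
  Bcomm : ∀ u : m, ⁅(u : 𝔸), B u⁆ = 0
  Bequi : ∀ u : m, u ≠ 0 → ∀ X ∈ g, ⁅(u : 𝔸), X⁆ ∈ m →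
    fderiv ℝ B u (P ⁅(u : 𝔸), X⁆) = ⁅B u, X⁆
  csm : ContDiffOn ℝ ∞ c {0}ᶜ
  chom : ∀ (r : ℝ) (u : m), r ≠ 0 → c (r • u) = c u
  cD : ∀ u : m, u ≠ 0 → ∀ v : m, D1 c u v * Q (u : 𝔸) u = -4 * Q (B u) v
  flat : ∀ u b : m, Flag Q u b → B u = (Q (B u) b) • (b : 𝔸)
  cw : ∀ u b : m, Flag Q u b → c u ^ 2 + (Q (B u) b) ^ 2 = 1

/-- `α(u, b) = Dφ_u [h₀, b]` -/
def al {m : Submodule ℝ 𝔸} (P : 𝔸 →L[ℝ] m) (h0 : 𝔸) (φ : m → ℝ) (u b : m) : ℝ :=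
  D1 φ u (P ⁅h0, (b : 𝔸)⁆)

/-- the derivative of `α` along the flat circle -/
def al' {m : Submodule ℝ 𝔸} (P : 𝔸 →L[ℝ] m) (h0 : 𝔸) (φ : m → ℝ) (u b : m) : ℝ :=
  D2 φ u b (P ⁅h0, (b : 𝔸)⁆)

/-- representative of a functional on `𝔪` -/
def rep {m : Submodule ℝ 𝔸} (Q : 𝔸 →ₗ[ℝ] 𝔸 →ₗ[ℝ] ℝ) (f : m →L[ℝ] ℝ) : m :=
  Classical.epsilon fun x => ∀ w : m, Q (x : 𝔸) w = f w

/-- the gradient of `φ` -/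
def gx {m : Submodule ℝ 𝔸} (Q : 𝔸 →ₗ[ℝ] 𝔸 →ₗ[ℝ] ℝ) (φ : m → ℝ) (u : m) : m :=
  rep Q (fderiv ℝ φ u)

/-- the first derivative of the gradient in the direction `b` -/
def gs {m : Submodule ℝ 𝔸} (Q : 𝔸 →ₗ[ℝ] 𝔸 →ₗ[ℝ] ℝ) (φ : m → ℝ) (u b : m) : m :=
  rep Q (fderiv ℝ (fun z => D1 φ z b) u)

/-- the second derivative of the gradient in the direction `b` -/
def gy {m : Submodule ℝ 𝔸} (Q : 𝔸 →ₗ[ℝ] 𝔸 →ₗ[ℝ] ℝ) (φ : m → ℝ) (u b : m) : m :=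
  rep Q (fderiv ℝ (fun z => D2 φ z b b) u)

/-- the third order form as a function of the flag -/
def T3F {m : Submodule ℝ 𝔸} (Q : 𝔸 →ₗ[ℝ] 𝔸 →ₗ[ℝ] ℝ) (P : 𝔸 →L[ℝ] m) (φ : m → ℝ) (u b : m) :
    ℝ :=
  T3N Q P φ u b (gx Q φ u) (gs Q φ u b) (gy Q φ u b)

/-- invariance under the isotropy group -/
def InvH (H : Subgroup 𝔸ˣ) {m : Submodule ℝ 𝔸} (φ : m → ℝ) : Prop :=
  ∀ k ∈ H, ∀ u v : m, (v : 𝔸) = Adj k u → φ v = φ u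

/-- the vector field `W u = [h₀, B u]` -/
def Wt {m : Submodule ℝ 𝔸} (P : 𝔸 →L[ℝ] m) (h0 : 𝔸) (B : m → 𝔸) (u : m) : m := P ⁅h0, B u⁆

/-- iterated derivatives of `v` along `W` -/
def aW {m : Submodule ℝ 𝔸} (P : 𝔸 →L[ℝ] m) (h0 : 𝔸) (B : m → 𝔸) (v : m → ℝ) : ℕ → m → ℝ
  | 0 => v
  | j + 1 => fun u => D1 (aW P h0 B v j) u (Wt P h0 B u)

end Pool.Agent.helper79.FR
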