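import Pool.Agent.helper79.FR.Calc

/-!
# MP_f09395_gt, regular part: adding a multiple of the square of the cubic invariant
-/

set_option linter.unusedSectionVars false

noncomputable section

namespace Pool.Agent.helper79.FR

open scoped ContDiff
open Pool.Agent.Helper93.Fin Pool.Agent.helper79.FP
open Filter Topology

variable {𝔸 : Type*} [NormedRing 𝔸] [NormedAlgebra ℝ 𝔸] [FiniteDimensional ℝ 𝔸]
variable {g h m : Submodule ℝ 𝔸} {Q : 𝔸 →ₗ[ℝ] 𝔸 →ₗ[ℝ] ℝ} {P : 𝔸 →L[ℝ] m} {φ ψ : m → ℝ}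
variable {h0 : 𝔸} {B : m → 𝔸} {c : m → ℝ}

/-- a function with the same first order data at a flag: difference of the third order forms -/
theorem T3F_diff (hN : NData g h m Q P) {u b : m} (h1 : ∀ w, D1 ψ u w = D1 φ u w)
    (h2 : ∀ w, D2 ψ u b w = D2 φ u b w) (h3 : ∀ w, D3 ψ u b b w = D3 φ u b b w)
    {e p q r : m} (he : e = P ⁅(u : 𝔸), (gx Q φ u : 𝔸)⁆) (hp : p = P ⁅(b : 𝔸), (gx Q φ u : 𝔸)⁆)
    (hq : q = P ⁅(u : 𝔸), (gs Q φ u b : 𝔸)⁆)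
    (hr : r = P ((2 : ℝ) • ⁅(b : 𝔸), (gs Q φ u b : 𝔸)⁆ + ⁅(u : 𝔸), (gy Q φ u b : 𝔸)⁆)) :
    T3F Q P ψ u b = T3F Q P φ u b - (1 / 2) * (D4 ψ u b b e e - D4 φ u b b e e)
      - (D3 ψ u b e ((2 : ℝ) • p - q) - D3 φ u b e ((2 : ℝ) • p - q))
      + (1 / 2) * (D2 ψ u e r - D2 φ u e r) - (D2 ψ u p p - D2 φ u p p)
      + (D2 ψ u p q - D2 φ u p q) - (D2 ψ u q q - D2 φ u q q) := by
  have hx : ∀ w : m, Q (gx Q φ u : 𝔸) w = D1 ψ u w := fun w => by rw [gx_spec hN, h1]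
  have hs : ∀ w : m, Q (gs Q φ u b : 𝔸) w = D2 ψ u b w := fun w => by rw [gs_spec hN, h2]
  have hy : ∀ w : m, Q (gy Q φ u b : 𝔸) w = D3 ψ u b b w := fun w => by rw [gy_spec hN, h3]
  rw [← T3F_eq hN hx hs hy, T3F]
  unfold T3N
  rw [← he, ← hp, ← hq, ← hr]
  ring

theorem al_eq (hN : NData g h m Q P) (hC : Cas g h m Q P h0 B c) (u b : m) :
    al P h0 φ u b = Q h0 ⁅(b : 𝔸), (gx Q φ u : 𝔸)⁆ := by
  rw [al, ← gx_spec hN, h0b_mem hN hC, hN.Qsymm, hN.Qinv]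

theorem al'_eq (hN : NData g h m Q P) (hC : Cas g h m Q P h0 B c) (u b : m) :
    al' P h0 φ u b = Q h0 ⁅(b : 𝔸), (gs Q φ u b : 𝔸)⁆ := by
  rw [al', ← gs_spec hN, h0b_mem hN hC, hN.Qsymm, hN.Qinv]

theorem p_mem (hN : NData g h m Q P) (hC : Cas g h m Q P h0 B c) {u b : m}
    (h : al P h0 φ u b = 0) :
    (P ⁅(b : 𝔸), (gx Q φ u : 𝔸)⁆ : 𝔸) = ⁅(b : 𝔸), (gx Q φ u : 𝔸)⁆ :=
  mem_m_of_h0 hN hC (lm hN _ _) (by rw [← al_eq hN hC]; exact h)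

theorem q_mem (hN : NData g h m Q P) (hC : Cas g h m Q P h0 B c) (hφ : PhiN h m P φ) {u b : m}
    (hu : u ≠ 0) (h : al P h0 φ u b = 0) :
    (P ⁅(u : 𝔸), (gs Q φ u b : 𝔸)⁆ : 𝔸) = ⁅(u : 𝔸), (gs Q φ u b : 𝔸)⁆ := by
  refine mem_m_of_h0 hN hC (lm hN _ _) ?_
  have h1 := eb_h hN hφ hu (b := b) (gx_spec hN u) (gs_spec hN u b) hC.mem
  rw [← al_eq hN hC, h, zero_add] at h1
  exact h1

/-- **I3**: `T3(φ + κ q²) = T3(φ) - 2 κ w² α'²` on `{α = 0}` -/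
theorem I3 (hN : NData g h m Q P) (hC : Cas g h m Q P h0 B c) (hφ : PhiN h m P φ) {u b : m}
    (hF : Flag Q u b) (ha : al P h0 φ u b = 0) (κ : ℝ) :
    T3F Q P (fun z => φ z + κ * qc Q h0 B z ^ 2) u b =
      T3F Q P φ u b - 2 * κ * (Q (B u) b * al' P h0 φ u b) ^ 2 := by
  have hu := hF.ne hN
  have hs := qc_smooth hC
  have hρ := sq_smooth κ hs
  have q0 := flag_q hN hC hF
  have q1 := flag_q1 hN hC hF
  have q2 := flag_q2 hN hC hF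
  obtain ⟨e, he⟩ : ∃ e : m, e = P ⁅(u : 𝔸), (gx Q φ u : 𝔸)⁆ := ⟨_, rfl⟩
  obtain ⟨p, hp⟩ : ∃ p : m, p = P ⁅(b : 𝔸), (gx Q φ u : 𝔸)⁆ := ⟨_, rfl⟩
  obtain ⟨q, hq⟩ : ∃ q : m, q = P ⁅(u : 𝔸), (gs Q φ u b : 𝔸)⁆ := ⟨_, rfl⟩
  obtain ⟨r, hr⟩ : ∃ r : m, r = P ((2 : ℝ) • ⁅(b : 𝔸), (gs Q φ u b : 𝔸)⁆ +
    ⁅(u : 𝔸), (gy Q φ u b : 𝔸)⁆) := ⟨_, rfl⟩
  have em := e_mem hN hφ hu (gx_spec hN u)
  have pm := p_mem hN hC ha
  have qm := q_mem hN hC hφ hu ha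
  -- `Dq(e) = w α = 0`
  have k1 : D1 (qc Q h0 B) u e = 0 := by
    rw [he, Bequi' hN hC hu (mg hN _) em, hC.flat u b hF, smul_lie', map_smul, ← al_eq hN hC, ha,
      smul_zero]
  -- `Dq(q) = w α'`
  have k2 : D1 (qc Q h0 B) u q = Q (B u) b * al' P h0 φ u b := by
    rw [hq, Bequi' hN hC hu (mg hN _) qm]
    conv_lhs => rw [hC.flat u b hF]
    rw [smul_lie', map_smul, ← al'_eq hN hC, smul_eq_mul]
  -- `D²q(b, e) = - Dq(p)`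
  have k3 : D2 (qc Q h0 B) u b e = - D1 (qc Q h0 B) u p := by
    have h1 := flag_mixed hN hC hF (mg hN (gx Q φ u)) em pm
    rw [← he, ← hp, D2_symm hs hu] at h1
    linarith
  have k4 : D1 (qc Q h0 B) u ((2 : ℝ) • p - q) = 2 * D1 (qc Q h0 B) u p - D1 (qc Q h0 B) u q := by
    unfold D1; rw [map_sub, map_smul, smul_eq_mul]
  rw [T3F_diff hN (φ := φ) (u := u) (b := b) ?_ ?_ ?_ he hp hq hr]
  · rw [D4_sum hφ.smooth hρ hu, D3_sum hφ.smooth hρ hu, D2_sum hφ.smooth hρ hu,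
      D2_sum hφ.smooth hρ hu, D2_sum hφ.smooth hρ hu, D2_sum hφ.smooth hρ hu,
      sq_D4 κ hs hu, sq_D3 κ hs hu, sq_D2 κ hs hu, sq_D2 κ hs hu, sq_D2 κ hs hu, sq_D2 κ hs hu,
      q0, q1, q2, k1, k3, k4, ← k2]
    ring
  · intro w
    rw [D1_sum hφ.smooth hρ hu, sq_D1 κ hs hu, q0]; ring
  · intro w
    rw [D2_sum hφ.smooth hρ hu, sq_D2 κ hs hu, q0, q1]; ring
  · intro w
    rw [D3_sum hφ.smooth hρ hu, sq_D3 κ hs hu, q0, q1, q2]; ring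

theorem al_sq (hN : NData g h m Q P) (hC : Cas g h m Q P h0 B c) (hφ : PhiN h m P φ) {u b : m}
    (hF : Flag Q u b) (κ : ℝ) :
    al P h0 (fun z => φ z + κ * qc Q h0 B z ^ 2) u b = al P h0 φ u b := by
  have hu := hF.ne hN
  have hs := qc_smooth hC
  unfold al
  rw [D1_sum hφ.smooth (sq_smooth κ hs) hu, sq_D1 κ hs hu, flag_q hN hC hF]
  ring

end Pool.Agent.helper79.FR
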