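import Pool.Agent.helper79.FR.Hb

/-!
# MP_f09395_gt, regular part: rotation of two functions by a Casimir function
-/

set_option linter.unusedSectionVars false

noncomputable section

namespace Pool.Agent.helper79.FR

open scoped ContDiff
open Pool.Agent.Helper93.Fin Pool.Agent.helper79.FP
open Filter Topology

variable {𝔸 : Type*} [NormedRing 𝔸] [NormedAlgebra ℝ 𝔸] [FiniteDimensional ℝ 𝔸]
variable {g h m : Submodule ℝ 𝔸} {Q : 𝔸 →ₗ[ℝ] 𝔸 →ₗ[ℝ] ℝ} {P : 𝔸 →L[ℝ] m} {φ ψ v z : m → ℝ}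
variable {h0 : 𝔸} {B : m → 𝔸} {c : m → ℝ} {H : Subgroup 𝔸ˣ} {l : ℝ → ℝ}

/-- `cos λ(c) v + sin λ(c) z` -/
def rot {m : Submodule ℝ 𝔸} (l : ℝ → ℝ) (c v z : m → ℝ) (u : m) : ℝ :=
  Real.cos (l (c u)) * v u + Real.sin (l (c u)) * z u

theorem cosl_smooth (hC : Cas g h m Q P h0 B c) (hl : ContDiff ℝ ∞ l) :
    ContDiffOn ℝ ∞ (fun u => Real.cos (l (c u))) {0}ᶜ :=
  (Real.contDiff_cos.comp hl).comp_contDiffOn hC.csm

theorem sinl_smooth (hC : Cas g h m Q P h0 B c) (hl : ContDiff ℝ ∞ l) :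
    ContDiffOn ℝ ∞ (fun u => Real.sin (l (c u))) {0}ᶜ :=
  (Real.contDiff_sin.comp hl).comp_contDiffOn hC.csm

theorem rot_smooth (hC : Cas g h m Q P h0 B c) (hl : ContDiff ℝ ∞ l)
    (hv : ContDiffOn ℝ ∞ v {0}ᶜ) (hz : ContDiffOn ℝ ∞ z {0}ᶜ) :
    ContDiffOn ℝ ∞ (rot l c v z) {0}ᶜ :=
  ((cosl_smooth hC hl).mul hv).add ((sinl_smooth hC hl).mul hz)

theorem rot_hom (hC : Cas g h m Q P h0 B c)
    (hv : ∀ (r : ℝ) (u : m), v (r • u) = r ^ 2 * v u)
    (hz : ∀ (r : ℝ) (u : m), z (r • u) = r ^ 2 * z u) (r : ℝ) (u : m) :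
    rot l c v z (r • u) = r ^ 2 * rot l c v z u := by
  unfold rot
  by_cases hr : r = 0
  · rw [hv, hz, hr]; ring
  · rw [hv, hz, hC.chom r u hr]; ring

theorem rot_inv (hG : GrpD H h m Q h0 B c) (hv : InvH H v) (hz : InvH H z) :
    InvH H (rot l c v z) := by
  intro k hk u u' huu
  unfold rot
  rw [hv k hk u u' huu, hz k hk u u' huu, hG.c k hk u u' huu]

/-- product rule for a Casimir factor -/
theorem cas_al (hN : NData g h m Q P) (hC : Cas g h m Q P h0 B c) {f : ℝ → ℝ}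
    (hf : ContDiff ℝ ∞ f) (hv : ContDiffOn ℝ ∞ v {0}ᶜ) {u b : m} (hF : Flag Q u b) :
    al P h0 (fun z => f (c z) * v z) u b = f (c u) * al P h0 v u b := by
  have hu := hF.ne hN
  unfold al
  rw [D1_mul (comp_smooth hf hC.csm) hv hu, comp_D1 hf hC.csm hu, flag_c0 hN hC hF]
  ring

theorem cas_al' (hN : NData g h m Q P) (hC : Cas g h m Q P h0 B c) {f : ℝ → ℝ}
    (hf : ContDiff ℝ ∞ f) (hv : ContDiffOn ℝ ∞ v {0}ᶜ) {u b : m} (hF : Flag Q u b) :
    al' P h0 (fun z => f (c z) * v z) u b =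
      f (c u) * al' P h0 v u b + deriv f (c u) * (-4 * Q (B u) b) * al P h0 v u b := by
  have hu := hF.ne hN
  unfold al' al
  rw [D2_mul (comp_smooth hf hC.csm) hv hu, comp_D1 hf hC.csm hu, comp_D1 hf hC.csm hu,
    comp_D2 hf hC.csm hu, flag_c0 hN hC hF, flag_c1 hN hC hF, flag_c2 hN hC hF]
  ring

theorem rot_al (hN : NData g h m Q P) (hC : Cas g h m Q P h0 B c) (hl : ContDiff ℝ ∞ l)
    (hv : ContDiffOn ℝ ∞ v {0}ᶜ) (hz : ContDiffOn ℝ ∞ z {0}ᶜ) {u b : m} (hF : Flag Q u b) :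
    al P h0 (rot l c v z) u b =
      Real.cos (l (c u)) * al P h0 v u b + Real.sin (l (c u)) * al P h0 z u b := by
  have hu := hF.ne hN
  have h1 := cas_al hN hC (Real.contDiff_cos.comp hl) hv hF
  have h2 := cas_al hN hC (Real.contDiff_sin.comp hl) hz hF
  have h3 : al P h0 (rot l c v z) u b = al P h0 (fun z => Real.cos (l (c z)) * v z) u b +
      al P h0 (fun w => Real.sin (l (c w)) * z w) u b :=
    D1_sum ((cosl_smooth hC hl).mul hv) ((sinl_smooth hC hl).mul hz) hu _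
  simp only [Function.comp_apply] at h1 h2
  rw [h3, h1, h2]

theorem rot_al' (hN : NData g h m Q P) (hC : Cas g h m Q P h0 B c) (hl : ContDiff ℝ ∞ l)
    (hv : ContDiffOn ℝ ∞ v {0}ᶜ) (hz : ContDiffOn ℝ ∞ z {0}ᶜ) {u b : m} (hF : Flag Q u b) :
    al' P h0 (rot l c v z) u b =
      (-4 * Q (B u) b * deriv l (c u)) * (-Real.sin (l (c u)) * al P h0 v u b +
        Real.cos (l (c u)) * al P h0 z u b)
      + Real.cos (l (c u)) * al' P h0 v u b + Real.sin (l (c u)) * al' P h0 z u b := by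
  have hu := hF.ne hN
  have h1 := cas_al' hN hC (Real.contDiff_cos.comp hl) hv hF
  have h2 := cas_al' hN hC (Real.contDiff_sin.comp hl) hz hF
  have h3 : al' P h0 (rot l c v z) u b = al' P h0 (fun z => Real.cos (l (c z)) * v z) u b +
      al' P h0 (fun w => Real.sin (l (c w)) * z w) u b :=
    D2_sum ((cosl_smooth hC hl).mul hv) ((sinl_smooth hC hl).mul hz) hu _ _
  have d : HasDerivAt l (deriv l (c u)) (c u) :=
    (hl.differentiable (by simp)).differentiableAt.hasDerivAt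
  have d1 : deriv (Real.cos ∘ l) (c u) = -Real.sin (l (c u)) * deriv l (c u) :=
    ((Real.hasDerivAt_cos (l (c u))).comp (c u) d).deriv
  have d2 : deriv (Real.sin ∘ l) (c u) = Real.cos (l (c u)) * deriv l (c u) :=
    ((Real.hasDerivAt_sin (l (c u))).comp (c u) d).deriv
  rw [d1] at h1
  rw [d2] at h2
  simp only [Function.comp_apply] at h1 h2
  rw [h3, h1, h2]
  ring

/-! ### evenness in `b` -/

theorem Flag.neg {u b : m} (hF : Flag Q u b) : Flag Q u (-b) := by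
  obtain ⟨h1, h2, h3, h4⟩ := hF
  refine ⟨h1, ?_, ?_, ?_⟩
  · simp [h2]
  · simp [h3]
  · simp only [Ring.lie_def, Submodule.coe_neg, mul_neg, neg_mul] at h4 ⊢
    rw [← neg_eq_zero, ← h4]; abel

theorem al_neg (u b : m) : al P h0 φ u (-b) = - al P h0 φ u b := by
  have h1 : P ⁅h0, ((-b : m) : 𝔸)⁆ = - P ⁅h0, (b : 𝔸)⁆ := by
    rw [← map_neg]
    congr 1
    simp only [Ring.lie_def, Submodule.coe_neg, mul_neg, neg_mul]; abel
  unfold al D1
  rw [h1, map_neg]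

theorem al'_neg (hf : ContDiffOn ℝ ∞ φ {0}ᶜ) {u : m} (hu : u ≠ 0) (b : m) :
    al' P h0 φ u (-b) = al' P h0 φ u b := by
  have h1 : P ⁅h0, ((-b : m) : 𝔸)⁆ = (-1 : ℝ) • P ⁅h0, (b : 𝔸)⁆ := by
    rw [neg_one_smul, ← map_neg]
    congr 1
    simp only [Ring.lie_def, Submodule.coe_neg, mul_neg, neg_mul]; abel
  have h2 : -b = (-1 : ℝ) • b := by rw [neg_one_smul]
  unfold al'
  rw [h1, h2, D2_smul hf hu, D2_smul_right hf hu]
  ring

end Pool.Agent.helper79.FR
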