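import Pool.Agent.helper79.FR.Rot
import Pool.Agent.helper46.FR.Comp

/-!
# MP_f09395_gt, regular part, step A: adding a large multiple of `-q²`
-/

set_option linter.unusedSectionVars false

noncomputable section

namespace Pool.Agent.helper79.FR

open scoped ContDiff
open Pool.Agent.Helper93.Fin Pool.Agent.helper79.FP
open Filter Topology

variable {𝔸 : Type*} [NormedRing 𝔸] [NormedAlgebra ℝ 𝔸] [FiniteDimensional ℝ 𝔸]
variable {g h m : Submodule ℝ 𝔸} {Q : 𝔸 →ₗ[ℝ] 𝔸 →ₗ[ℝ] ℝ} {P : 𝔸 →L[ℝ] m} {φ ψ v z : m → ℝ}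
variable {h0 : 𝔸} {B : m → 𝔸} {c : m → ℝ} {H : Subgroup 𝔸ˣ}

theorem flag_ne (hN : NData g h m Q P) {p : m × m} (hp : p ∈ (FlagSet Q : Set (m × m))) :
    p.1 ≠ 0 := Flag.ne hN hp

theorem compact_sub (hN : NData g h m Q P) {f : m × m → ℝ}
    (hf : ContinuousOn f (FlagSet Q : Set (m × m))) {T : Set ℝ} (hT : IsClosed T) :
    IsCompact ((FlagSet Q : Set (m × m)) ∩ f ⁻¹' T) :=
  (flagSet_compact hN).of_isClosed_subset
    (hf.preimage_isClosed_of_isClosed (flagSet_compact hN).isClosed hT) Set.inter_subset_left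

theorem cont_fst {F : Type*} [NormedAddCommGroup F] [NormedSpace ℝ F] {f : m → F}
    (hf : ContDiffOn ℝ ∞ f {0}ᶜ) {S : Set (m × m)} (hS : ∀ p ∈ S, p.1 ≠ 0) :
    ContinuousOn (fun p : m × m => f p.1) S :=
  hf.continuousOn.comp continuous_fst.continuousOn fun p hp => hS p hp

theorem w_cont (hC : Cas g h m Q P h0 B c) {S : Set (m × m)} (hS : ∀ p ∈ S, p.1 ≠ 0) :
    ContinuousOn (fun p : m × m => Q (B p.1) p.2) S := by
  have h1 : ContinuousOn (fun p : m × m => Qc Q (B p.1)) S :=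
    (Qc Q).continuous.comp_continuousOn (cont_fst hC.Bsm hS)
  exact h1.clm_apply (continuous_subtype_val.comp continuous_snd).continuousOn

theorem qc_inv (hC : Cas g h m Q P h0 B c) (hG : GrpD H h m Q h0 B c) : InvH H (qc Q h0 B) := by
  intro k hk u u' huu
  unfold qc
  rw [hG.B k hk u u' huu, hG.Q0 k hk]

theorem sq_PhiN (hN : NData g h m Q P) (hC : Cas g h m Q P h0 B c) (hG : GrpD H h m Q h0 B c)
    (hφ : PhiN h m P φ) (hH : InvH H φ) (κ : ℝ) :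
    PhiN h m P (fun z => φ z + κ * qc Q h0 B z ^ 2) ∧
      InvH H (fun z => φ z + κ * qc Q h0 B z ^ 2) := by
  have h1 : ContDiffOn ℝ ∞ (fun z => φ z + κ * qc Q h0 B z ^ 2) {0}ᶜ :=
    hφ.smooth.add (sq_smooth κ (qc_smooth hC))
  have h2 : InvH H (fun z => φ z + κ * qc Q h0 B z ^ 2) := by
    intro k hk u u' huu
    simp only
    rw [hH k hk u u' huu, qc_inv hC hG k hk u u' huu]
  refine ⟨⟨h1, fun r u => ?_, inv_of_InvH hN hG h1 h2⟩, h2⟩
  rw [hφ.hom, qc_hom hC]; ring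

/-- **step A** -/
theorem stepA (hN : NData g h m Q P) (hC : Cas g h m Q P h0 B c) (hφ : PhiN h m P φ)
    (hT : ∀ u b : m, Flag Q u b → al P h0 φ u b = 0 →
      0 < T3F Q P φ u b ∨ Q (B u) b * al' P h0 φ u b ≠ 0) :
    ∃ κ : ℝ, T3Pos h Q P (fun z => φ z + κ * qc Q h0 B z ^ 2) := by
  have hS : ∀ p ∈ (FlagSet Q : Set (m × m)), p.1 ≠ 0 := fun p hp => flag_ne hN hp
  have hK := compact_sub hN (al_cont (P := P) (h0 := h0) hφ.smooth hS)
    (isClosed_singleton (x := (0 : ℝ)))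
  have hS' : ∀ p ∈ (FlagSet Q : Set (m × m)) ∩ (fun p : m × m => al P h0 φ p.1 p.2) ⁻¹' {0},
    p.1 ≠ 0 := fun p hp => hS p hp.1
  obtain ⟨C, hC0, hC1⟩ := pos_add_sq hK (T3F_cont hN hφ.smooth hS')
    (g := fun p : m × m => Q (B p.1) p.2 * al' P h0 φ p.1 p.2)
    ((w_cont hC hS').mul (al'_cont hφ.smooth hS'))
    (by
      rintro p ⟨hp, hp'⟩ h0'
      rcases hT p.1 p.2 hp hp' with h1 | h1
      · exact h1
      · exact absurd h0' h1)
  refine ⟨-C / 2, T3Pos_of hN hC.mem fun u b hF ha => ?_⟩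
  rw [al_sq hN hC hφ hF] at ha
  rw [I3 hN hC hφ hF ha]
  have h1 := hC1 (u, b) ⟨hF, ha⟩
  simp only at h1
  linarith

end Pool.Agent.helper79.FR
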